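import Mathlib

set_option autoImplicit false

/-! Quadratic exponential sums: the basic bounds. -/

namespace Pool.Agent.H621.WS
open Finset

/-- `e(x) = exp(2 π i x)` -/
noncomputable def e (x : ℝ) : ℂ := Complex.exp ((2 * Real.pi * x : ℝ) * Complex.I)

lemma norm_e (x : ℝ) : ‖e x‖ = 1 := Complex.norm_exp_ofReal_mul_I _

lemma e_add (x y : ℝ) : e (x + y) = e x * e y := by
  unfold e
  rw [← Complex.exp_add]
  congr 1
  push_cast
  ring

lemma e_zero : e 0 = 1 := by simp [e]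

lemma e_int (n : ℤ) : e n = 1 := by
  unfold e
  rw [Complex.exp_eq_one_iff]
  exact ⟨n, by push_cast; ring⟩

lemma e_nat (n : ℕ) : e n = 1 := by
  have := e_int n
  simpa using this

lemma e_add_int (x : ℝ) (n : ℤ) : e (x + n) = e x := by rw [e_add, e_int, mul_one]

lemma e_conj (x : ℝ) : (starRingEnd ℂ) (e x) = e (-x) := by
  unfold e
  rw [← Complex.exp_conj]
  congr 1
  rw [map_mul, Complex.conj_I, Complex.conj_ofReal]
  push_cast
  ring

lemma e_ne_zero (x : ℝ) : e x ≠ 0 := Complex.exp_ne_zero _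

lemma e_nat_mul (n : ℕ) (x : ℝ) : e (n * x) = e x ^ n := by
  unfold e
  rw [← Complex.exp_nat_mul]
  congr 1
  push_cast
  ring

lemma e_neg (x : ℝ) : e (-x) = (e x)⁻¹ := by
  have h : e (-x) * e x = 1 := by rw [← e_add]; simp [e_zero]
  exact eq_inv_of_mul_eq_one_left h

lemma norm_e_sub_one (x : ℝ) : ‖e x - 1‖ = 2 * |Real.sin (Real.pi * x)| := by
  unfold e
  have h := Complex.norm_exp_I_mul_ofReal_sub_one (x := 2 * Real.pi * x)
  rw [mul_comm] at h
  rw [h, show 2 * Real.pi * x / 2 = Real.pi * x by ring, Real.norm_eq_abs, abs_mul, abs_two]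

/-- `|e(x) - 1| ≥ 4 |x|` for `|x| ≤ 1/2` -/
lemma norm_e_sub_one_ge {x : ℝ} (hx : |x| ≤ 1 / 2) : 4 * |x| ≤ ‖e x - 1‖ := by
  rw [norm_e_sub_one]
  have h : |Real.pi * x| ≤ Real.pi / 2 := by
    rw [abs_mul, abs_of_pos Real.pi_pos]
    nlinarith [Real.pi_pos]
  have h1 := Real.mul_abs_le_abs_sin h
  rw [abs_mul, abs_of_pos Real.pi_pos] at h1
  have h2 : 2 / Real.pi * (Real.pi * |x|) = 2 * |x| := by
    field_simp
  rw [h2] at h1
  linarith

/-- `|e(x) - 1| ≤ 2 π |x|` -/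
lemma norm_e_sub_one_le (x : ℝ) : ‖e x - 1‖ ≤ 2 * Real.pi * |x| := by
  rw [norm_e_sub_one]
  have h1 : |Real.sin (Real.pi * x)| ≤ |Real.pi * x| := Real.abs_sin_le_abs
  rw [abs_mul, abs_of_pos Real.pi_pos] at h1
  linarith

/-- distance to the nearest integer -/
noncomputable def nd (x : ℝ) : ℝ := |x - round x|

lemma nd_nonneg (x : ℝ) : 0 ≤ nd x := abs_nonneg _

lemma norm_e_sub_one_ge' (x : ℝ) : 4 * nd x ≤ ‖e x - 1‖ := by
  have h1 : e x = e (x - round x) := by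
    have h2 : x = (x - round x) + ((round x : ℤ) : ℝ) := by ring
    conv_lhs => rw [h2]
    rw [e_add_int]
  rw [h1]
  exact norm_e_sub_one_ge (abs_sub_round x)

lemma norm_sum_le_N (φ : ℕ → ℝ) (N : ℕ) : ‖∑ n ∈ range N, e (φ n)‖ ≤ N := by
  calc ‖∑ n ∈ range N, e (φ n)‖ ≤ ∑ n ∈ range N, ‖e (φ n)‖ := norm_sum_le _ _
    _ = N := by simp [norm_e]

lemma geom_bound (x c : ℝ) (N : ℕ) : ‖∑ n ∈ range N, e (n * x + c)‖ * ‖e x - 1‖ ≤ 2 := by
  have h1 : (∑ n ∈ range N, e (n * x + c)) * (e x - 1) = e c * (e x ^ N - 1) := by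
    have h2 : ∑ n ∈ range N, e (n * x + c) = e c * ∑ n ∈ range N, e x ^ n := by
      rw [mul_sum]
      apply sum_congr rfl
      intro n _
      rw [e_add, e_nat_mul, mul_comm]
    rw [h2, mul_assoc, geom_sum_mul]
  rw [← norm_mul, h1, norm_mul, norm_e, one_mul]
  calc ‖e x ^ N - 1‖ ≤ ‖e x ^ N‖ + ‖(1 : ℂ)‖ := norm_sub_le _ _
    _ = 2 := by rw [norm_pow, norm_e]; norm_num

lemma geom_bound' (x c : ℝ) (N : ℕ) (hx : 0 < nd x) :
    ‖∑ n ∈ range N, e (n * x + c)‖ ≤ 1 / (2 * nd x) := by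
  have h1 := geom_bound x c N
  have h2 := norm_e_sub_one_ge' x
  rw [le_div_iff₀ (by positivity)]
  have h3 := norm_nonneg (∑ n ∈ range N, e (n * x + c))
  nlinarith

/-- the Weyl - van der Corput inequality in its simplest form -/
lemma vdc (F : ℕ → ℂ) (hF : ∀ n, ‖F n‖ = 1) (N : ℕ) :
    ‖∑ n ∈ range N, F n‖ ^ 2 ≤ 2 * ∑ h ∈ range N, ‖∑ n ∈ range (N - h), F (n + h) * (starRingEnd ℂ) (F n)‖ := by
  have hA : ∀ N : ℕ, ‖∑ n ∈ range N, F n‖ ^ 2 =
      2 * (∑ n ∈ range N, ∑ m ∈ range (n + 1), F n * (starRingEnd ℂ) (F m)).re - N := by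
    intro N
    induction N with
    | zero => simp
    | succ N ih =>
      rw [sum_range_succ, sum_range_succ (fun n => ∑ m ∈ range (n + 1), F n * (starRingEnd ℂ) (F m))]
      have h1 : ∀ a b : ℂ, ‖a + b‖ ^ 2 = ‖a‖ ^ 2 + ‖b‖ ^ 2 + 2 * (b * (starRingEnd ℂ) a).re := by
        intro a b
        rw [← Complex.normSq_eq_norm_sq, ← Complex.normSq_eq_norm_sq, ← Complex.normSq_eq_norm_sq, Complex.normSq_add]
        have : (a * (starRingEnd ℂ) b).re = (b * (starRingEnd ℂ) a).re := by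
          simp only [Complex.mul_re, Complex.conj_re, Complex.conj_im]; ring
        rw [this]
      rw [h1, ih, hF N, sum_range_succ, ← mul_sum, ← map_sum]
      have h2 : F N * (starRingEnd ℂ) (F N) = 1 := by
        rw [Complex.mul_conj, Complex.normSq_eq_norm_sq, hF]; norm_num
      rw [h2]
      simp only [Complex.add_re, Complex.one_re]
      push_cast
      ring
  have hB : ∀ N : ℕ, ∑ n ∈ range N, ∑ m ∈ range (n + 1), F n * (starRingEnd ℂ) (F m) =
      ∑ h ∈ range N, ∑ n ∈ range (N - h), F (n + h) * (starRingEnd ℂ) (F n) := by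
    intro N
    induction N with
    | zero => simp
    | succ N ih =>
      rw [sum_range_succ, ih]
      have h1 : ∀ h ∈ range (N + 1), ∑ n ∈ range (N + 1 - h), F (n + h) * (starRingEnd ℂ) (F n) =
          ∑ n ∈ range (N - h), F (n + h) * (starRingEnd ℂ) (F n) + F N * (starRingEnd ℂ) (F (N - h)) := by
        intro h hh
        rw [mem_range] at hh
        rw [show N + 1 - h = (N - h) + 1 by omega, sum_range_succ, show N - h + h = N by omega]
      rw [sum_congr rfl h1, sum_add_distrib, sum_range_succ (fun h => ∑ n ∈ range (N - h), F (n + h) * (starRingEnd ℂ) (F n))]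
      rw [Nat.sub_self, range_zero, sum_empty, add_zero]
      congr 1
      have h2 := sum_range_reflect (fun m => F N * (starRingEnd ℂ) (F m)) (N + 1)
      rw [← h2]
      apply sum_congr rfl
      intro m _
      rw [show N + 1 - 1 - m = N - m by omega]
  rw [hA, hB]
  have h1 : (∑ h ∈ range N, ∑ n ∈ range (N - h), F (n + h) * (starRingEnd ℂ) (F n)).re ≤
      ∑ h ∈ range N, ‖∑ n ∈ range (N - h), F (n + h) * (starRingEnd ℂ) (F n)‖ :=
    (Complex.re_le_norm _).trans (norm_sum_le _ _)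
  have h2 : (0 : ℝ) ≤ N := Nat.cast_nonneg N
  linarith


/-- The quadratic sum. -/
noncomputable def Q (x ξ : ℝ) (N : ℕ) : ℂ := ∑ n ∈ range N, e (x * n + ξ * (n : ℝ) ^ 2)

lemma norm_Q_le (x ξ : ℝ) (N : ℕ) : ‖Q x ξ N‖ ≤ N := norm_sum_le_N _ N

/-- Weyl differencing -/
lemma Q_sq_le (x ξ : ℝ) (N : ℕ) :
    ‖Q x ξ N‖ ^ 2 ≤ 2 * ∑ h ∈ range N, ‖∑ n ∈ range (N - h), e (n * (2 * ξ * h) + (x * h + ξ * h ^ 2))‖ := by
  have h1 := vdc (fun n : ℕ => e (x * n + ξ * (n : ℝ) ^ 2)) (fun n => norm_e _) N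
  refine h1.trans (le_of_eq ?_)
  congr 1
  apply sum_congr rfl
  intro h _
  congr 1
  apply sum_congr rfl
  intro n _
  rw [e_conj, ← e_add]
  congr 1
  push_cast
  ring

/-- splitting a sum: the bound for short sums, uniform in the linear coefficient, gives the bound for long
sums -/
lemma Q_split (ξ : ℝ) (L : ℕ) (hL : 1 ≤ L) (B : ℝ) (hB : ∀ x, ∀ M ≤ L, ‖Q x ξ M‖ ≤ B) (x : ℝ) (N : ℕ) :
    ‖Q x ξ N‖ ≤ ((N : ℝ) / L + 1) * B := by
  have hB0 : 0 ≤ B := (norm_nonneg _).trans (hB 0 0 (Nat.zero_le _))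
  have key : ∀ k : ℕ, ∀ x : ℝ, ∀ M, M ≤ L → ‖Q x ξ (k * L + M)‖ ≤ (k + 1) * B := by
    intro k
    induction k with
    | zero => intro x M hM; simpa using hB x M hM
    | succ k ih =>
      intro x M hM
      have h1 : Q x ξ ((k + 1) * L + M) = Q x ξ (k * L + L) +
          e (x * ((k + 1) * L : ℕ) + ξ * (((k + 1) * L : ℕ) : ℝ) ^ 2) * Q (x + 2 * ξ * ((k + 1) * L : ℕ)) ξ M := by
        unfold Q
        rw [show k * L + L = (k + 1) * L by ring, sum_range_add, mul_sum]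
        congr 1
        apply sum_congr rfl
        intro n _
        rw [← e_add]
        congr 1
        push_cast
        ring
      rw [h1]
      calc _ ≤ ‖Q x ξ (k * L + L)‖ + ‖e (x * ((k + 1) * L : ℕ) + ξ * (((k + 1) * L : ℕ) : ℝ) ^ 2) *
            Q (x + 2 * ξ * ((k + 1) * L : ℕ)) ξ M‖ := norm_add_le _ _
        _ ≤ (k + 1) * B + B := by
          refine add_le_add (ih x L le_rfl) ?_
          rw [norm_mul, norm_e, one_mul]
          exact hB _ M hM
        _ = _ := by push_cast; ring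
  have h2 := key (N / L) x (N % L) (Nat.mod_lt _ (by omega)).le
  rw [mul_comm (N / L) L, Nat.div_add_mod] at h2
  refine h2.trans (mul_le_mul_of_nonneg_right ?_ hB0)
  have h3 : ((N / L : ℕ) : ℝ) ≤ (N : ℝ) / L := Nat.cast_div_le
  linarith

end Pool.Agent.H621.WS
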