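import Pool.Agent.H621.WS.A

set_option autoImplicit false

/-! Weyl's bound for quadratic sums near a rational number. -/

namespace Pool.Agent.H621.WS
open Finset

lemma nd_ge {δ : ℝ} (hδ : |δ| ≤ 1 / 2) (m : ℤ) : |δ| ≤ nd (δ + m) := by
  have key : ∀ k : ℤ, |δ| ≤ |δ + k| := by
    intro k
    rcases eq_or_ne k 0 with rfl | hk
    · simp
    · have h1 : (1 : ℝ) ≤ |(k : ℝ)| := by
        rw [← Int.cast_abs]
        exact_mod_cast Int.one_le_abs hk
      have h2 : |(k : ℝ)| - |δ| ≤ |δ + k| := by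
        have := abs_sub_abs_le_abs_sub (k : ℝ) (-δ)
        rw [abs_neg, sub_neg_eq_add, add_comm (k : ℝ) δ] at this
        exact this
      linarith
  unfold nd
  have h3 := key (m - round (δ + m))
  push_cast at h3
  have h4 : δ + (↑m - ↑(round (δ + ↑m))) = δ + m - round (δ + m) := by ring
  rw [h4] at h3
  exact h3

lemma nd_lip (x y : ℝ) : nd x - |x - y| ≤ nd y := by
  unfold nd
  have h1 := round_le x (round y)
  have h2 : |x - round y| ≤ |x - y| + |y - round y| := by
    have := abs_add_le (x - y) (y - round y)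
    simpa using this
  linarith

/-- the balanced residue -/
noncomputable def res (q : ℕ) (k : ℤ) : ℤ := ((k : ℤ) : ZMod q).valMinAbs

lemma res_spec (q : ℕ) (k : ℤ) : ∃ t : ℤ, k = res q k + q * t := by
  have h : ((k : ℤ) : ZMod q) = ((res q k : ℤ) : ZMod q) := by
    unfold res
    rw [ZMod.coe_valMinAbs]
  have h2 : (q : ℤ) ∣ k - res q k := by
    have := (ZMod.intCast_eq_intCast_iff_dvd_sub (res q k) k q).1 h.symm
    exact this
  obtain ⟨t, ht⟩ := h2
  exact ⟨t, by rw [← ht]; ring⟩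

lemma nd_res {q : ℕ} (hq : 1 ≤ q) (k : ℤ) : (|res q k| : ℝ) / q ≤ nd ((k : ℝ) / q) := by
  have hq0 : (0 : ℝ) < q := by exact_mod_cast hq
  have : NeZero q := ⟨by omega⟩
  obtain ⟨t, ht⟩ := res_spec q k
  have h1 : ((k : ℝ) / q) = ((res q k : ℤ) : ℝ) / q + t := by
    have : (k : ℝ) = ((res q k : ℤ) : ℝ) + q * t := by exact_mod_cast ht
    rw [this, add_div, mul_div_cancel_left₀ _ hq0.ne']
  have h2 : |((res q k : ℤ) : ℝ) / q| ≤ 1 / 2 := by
    rw [abs_div, abs_of_pos hq0, div_le_iff₀ hq0]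
    have h3 : (res q k).natAbs ≤ q / 2 := ZMod.natAbs_valMinAbs_le _
    have h4 : |((res q k : ℤ) : ℝ)| = ((res q k).natAbs : ℝ) := by
      rw [← Int.cast_abs, Int.abs_eq_natAbs]; simp
    rw [h4]
    have h5 : ((res q k).natAbs : ℝ) ≤ ((q / 2 : ℕ) : ℝ) := by exact_mod_cast h3
    have h6 : ((q / 2 : ℕ) : ℝ) ≤ (q : ℝ) / 2 := Nat.cast_div_le
    linarith
  have h3 := nd_ge h2 t
  rw [← h1, abs_div, abs_of_pos hq0] at h3
  exact h3

lemma sum_range_zmod {q : ℕ} [NeZero q] (F : ZMod q → ℝ) :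
    ∑ h ∈ range q, F (h : ZMod q) = ∑ s : ZMod q, F s := by
  refine sum_nbij' (fun h => (h : ZMod q)) (fun s => s.val) ?_ ?_ ?_ ?_ ?_
  · intro h _; exact mem_univ _
  · intro s _; exact mem_range.2 (ZMod.val_lt s)
  · intro h hh
    exact ZMod.val_cast_of_lt (mem_range.1 hh)
  · intro s _
    exact ZMod.natCast_zmod_val s
  · intro h _; rfl

lemma sum_block {q : ℕ} [NeZero q] (a : ℤ) (ha : IsUnit ((a : ℤ) : ZMod q)) (F : ZMod q → ℝ)
    (hF : ∀ s, 0 ≤ F s) (N : ℕ) :
    ∑ h ∈ range N, F ((h : ZMod q) * (a : ZMod q)) ≤ ((N : ℝ) / q + 1) * ∑ s : ZMod q, F s := by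
  have hq0 : (0 : ℝ) < q := by exact_mod_cast Nat.pos_of_ne_zero (NeZero.ne q)
  have hS : 0 ≤ ∑ s : ZMod q, F s := sum_nonneg fun s _ => hF s
  have hunit : ∑ s : ZMod q, F (s * (a : ZMod q)) = ∑ s : ZMod q, F s := by
    obtain ⟨u, hu⟩ := ha
    rw [← hu]
    exact Fintype.sum_equiv (Units.mulRight u) _ _ (fun s => rfl)
  have key : ∀ k : ℕ, ∑ h ∈ range (k * q), F ((h : ZMod q) * (a : ZMod q)) = k * ∑ s : ZMod q, F s := by
    intro k
    induction k with
    | zero => simp
    | succ k ih =>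
      rw [Nat.succ_mul, sum_range_add, ih]
      have h1 : ∑ x ∈ range q, F (((k * q + x : ℕ) : ZMod q) * (a : ZMod q)) =
          ∑ x ∈ range q, F ((x : ZMod q) * (a : ZMod q)) := by
        apply sum_congr rfl
        intro x _
        congr 2
        push_cast
        simp
      rw [h1, sum_range_zmod (fun s => F (s * (a : ZMod q))), hunit]
      push_cast
      ring
  have hsub : range N ⊆ range ((N / q + 1) * q) := by
    apply range_subset_range.2
    have := Nat.lt_div_mul_add (a := N) (b := q) (Nat.pos_of_ne_zero (NeZero.ne q))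
    have h2 : N < (N / q + 1) * q := by
      rw [Nat.add_mul, one_mul]; exact this
    exact h2.le
  calc ∑ h ∈ range N, F ((h : ZMod q) * (a : ZMod q)) ≤
        ∑ h ∈ range ((N / q + 1) * q), F ((h : ZMod q) * (a : ZMod q)) :=
        sum_le_sum_of_subset_of_nonneg hsub fun s _ _ => hF _
    _ = ((N / q + 1 : ℕ) : ℝ) * ∑ s : ZMod q, F s := key _
    _ ≤ _ := by
      apply mul_le_mul_of_nonneg_right _ hS
      push_cast
      have : ((N / q : ℕ) : ℝ) ≤ (N : ℝ) / q := Nat.cast_div_le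
      linarith

/-- harmonic bound -/
lemma sum_inv_le_log (n : ℕ) : ∑ t ∈ Icc 1 n, 1 / (t : ℝ) ≤ 1 + Real.log n := by
  have h := harmonic_le_one_add_log n
  have h1 : ((harmonic n : ℚ) : ℝ) = ∑ t ∈ Icc 1 n, 1 / (t : ℝ) := by
    rw [harmonic_eq_sum_Icc]
    push_cast
    simp
  rw [← h1]
  exact h

lemma sum_res_inv {q : ℕ} [NeZero q] :
    ∑ s : ZMod q, (if s = 0 then (0 : ℝ) else 1 / (s.valMinAbs.natAbs : ℝ)) ≤ 2 * (1 + Real.log q) := by
  have h1 : ∑ s : ZMod q, (if s = 0 then (0 : ℝ) else 1 / (s.valMinAbs.natAbs : ℝ)) =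
      ∑ s ∈ (univ : Finset (ZMod q)).filter (fun s => s ≠ 0), 1 / (s.valMinAbs.natAbs : ℝ) := by
    rw [sum_filter]
    apply sum_congr rfl
    intro s _
    by_cases h : s = 0 <;> simp [h]
  rw [h1]
  have hmaps : ∀ s ∈ (univ : Finset (ZMod q)).filter (fun s => s ≠ 0), s.valMinAbs.natAbs ∈ Icc 1 q := by
    intro s hs
    rw [mem_filter] at hs
    rw [mem_Icc]
    constructor
    · rw [Nat.one_le_iff_ne_zero, Int.natAbs_ne_zero, Ne, ZMod.valMinAbs_eq_zero]
      exact hs.2
    · exact (ZMod.natAbs_valMinAbs_le s).trans (Nat.div_le_self _ _)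
  rw [← sum_fiberwise_of_maps_to hmaps]
  calc ∑ t ∈ Icc 1 q, ∑ s ∈ ((univ : Finset (ZMod q)).filter (fun s => s ≠ 0)).filter
        (fun s => s.valMinAbs.natAbs = t), 1 / (s.valMinAbs.natAbs : ℝ)
      ≤ ∑ t ∈ Icc 1 q, 2 * (1 / (t : ℝ)) := by
        apply sum_le_sum
        intro t ht
        rw [sum_congr rfl (g := fun _ => 1 / (t : ℝ)) (fun s hs => by rw [(mem_filter.1 hs).2]), sum_const,
          nsmul_eq_mul]
        apply mul_le_mul_of_nonneg_right _ (by positivity)
        have hsub : ((univ : Finset (ZMod q)).filter (fun s => s ≠ 0)).filter (fun s => s.valMinAbs.natAbs = t) ⊆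
            {(t : ZMod q), -(t : ZMod q)} := by
          intro s hs
          rw [mem_filter] at hs
          rw [mem_insert, mem_singleton]
          rcases Int.natAbs_eq s.valMinAbs with h | h
          · left
            rw [hs.2] at h
            have := ZMod.coe_valMinAbs s
            rw [h] at this
            rw [← this]; simp
          · right
            rw [hs.2] at h
            have := ZMod.coe_valMinAbs s
            rw [h] at this
            rw [← this]; simp
        have := (card_le_card hsub).trans card_le_two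
        exact_mod_cast this
    _ = 2 * ∑ t ∈ Icc 1 q, 1 / (t : ℝ) := by rw [mul_sum]
    _ ≤ 2 * (1 + Real.log q) := by
      have := sum_inv_le_log q
      linarith

/-- the multiples of `q` -/
lemma sum_mult {q : ℕ} (hq : 1 ≤ q) (G : ℕ → ℝ) (hG : ∀ n, 0 ≤ G n) (N : ℕ) :
    ∑ h ∈ (range N).filter (fun h => h ≠ 0 ∧ q ∣ h), G h ≤ ∑ j ∈ Icc 1 (N / q), G (q * j) := by
  have h1 : (range N).filter (fun h => h ≠ 0 ∧ q ∣ h) ⊆ (Icc 1 (N / q)).image (fun j => q * j) := by
    intro h hh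
    rw [mem_filter, mem_range] at hh
    obtain ⟨h2, h3, j, rfl⟩ := hh
    rw [mem_image]
    refine ⟨j, mem_Icc.2 ⟨?_, ?_⟩, rfl⟩
    · rcases Nat.eq_zero_or_pos j with h0 | h0
      · subst h0; simp at h3
      · exact h0
    · rw [Nat.le_div_iff_mul_le (by omega), mul_comm]
      exact h2.le
  calc _ ≤ ∑ h ∈ (Icc 1 (N / q)).image (fun j => q * j), G h :=
        sum_le_sum_of_subset_of_nonneg h1 fun _ _ _ => hG _
    _ = _ := sum_image (fun x _ y _ hxy => Nat.eq_of_mul_eq_mul_left (by omega) hxy)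

/-- **The bound near a rational number** with denominator `q`. -/
theorem Q_bound {q : ℕ} (hq : 1 ≤ q) (a : ℤ) (ha : IsUnit ((a : ℤ) : ZMod q)) (ξ β : ℝ) (hβ : 0 < β)
    (hξ : 2 * ξ = a / q + β) (x : ℝ) (N : ℕ) (hN : (N : ℝ) * β ≤ 1 / (2 * q)) :
    ‖Q x ξ N‖ ^ 2 ≤ 2 * (N + 2 * (N + q) * (1 + Real.log q) +
      min ((N : ℝ) ^ 2 / q) ((1 + Real.log N) / (2 * q * β))) := by
  have hq0 : (0 : ℝ) < q := by exact_mod_cast hq
  have : NeZero q := ⟨by omega⟩
  refine (Q_sq_le x ξ N).trans ?_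
  apply mul_le_mul_of_nonneg_left _ (by norm_num)
  set T : ℕ → ℝ := fun h => ‖∑ n ∈ range (N - h), e (n * (2 * ξ * h) + (x * h + ξ * h ^ 2))‖ with hT
  have hTN : ∀ h, T h ≤ N := by
    intro h
    refine (norm_sum_le_N _ _).trans ?_
    exact_mod_cast Nat.sub_le N h
  have hT0 : ∀ h, 0 ≤ T h := fun h => norm_nonneg _
  set F : ZMod q → ℝ := fun s => if s = 0 then (0 : ℝ) else q * (1 / (s.valMinAbs.natAbs : ℝ)) with hF
  have hF0 : ∀ s, 0 ≤ F s := by
    intro s
    simp only [hF]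
    split_ifs
    · exact le_rfl
    · positivity
  -- non multiples
  have hnon : ∀ h ∈ range N, h ≠ 0 → ¬ q ∣ h → T h ≤ F ((h : ZMod q) * (a : ZMod q)) := by
    intro h hh h0 hqh
    rw [mem_range] at hh
    have hs : (h : ZMod q) * (a : ZMod q) ≠ 0 := by
      intro h1
      apply hqh
      rw [← ZMod.natCast_eq_zero_iff]
      exact (ha.mul_left_eq_zero).1 h1
    simp only [hF]
    rw [if_neg hs]
    have e1 : (h : ZMod q) * (a : ZMod q) = (((h : ℤ) * a : ℤ) : ZMod q) := by push_cast; rfl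
    have hres : ((h : ZMod q) * (a : ZMod q)).valMinAbs = res q ((h : ℤ) * a) := by
      rw [e1]; rfl
    rw [hres]
    rw [e1] at hs
    have hr1 : 1 ≤ (res q ((h : ℤ) * a)).natAbs := by
      rw [Nat.one_le_iff_ne_zero, Int.natAbs_ne_zero]
      unfold res
      rw [Ne, ZMod.valMinAbs_eq_zero]
      exact hs
    set r := (res q ((h : ℤ) * a)).natAbs with hr
    have hrr : (|res q ((h : ℤ) * a)| : ℝ) = r := by
      rw [hr, ← Int.cast_abs, Int.abs_eq_natAbs]; simp
    have h2 := nd_res hq ((h : ℤ) * a)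
    rw [hrr] at h2
    have h3 := nd_lip ((((h : ℤ) * a : ℤ) : ℝ) / q) (2 * ξ * h)
    have h4 : |(((h : ℤ) * a : ℤ) : ℝ) / q - 2 * ξ * h| = h * β := by
      have : (((h : ℤ) * a : ℤ) : ℝ) / q - 2 * ξ * h = - (h * β) := by
        rw [hξ]; push_cast; field_simp; ring
      rw [this, abs_neg, abs_of_nonneg (by positivity)]
    rw [h4] at h3
    have h5 : (h : ℝ) * β ≤ 1 / (2 * q) := by
      refine le_trans ?_ hN
      have : (h : ℝ) ≤ N := by exact_mod_cast hh.le
      nlinarith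
    have hr1' : (1 : ℝ) ≤ r := by exact_mod_cast hr1
    have h6 : (r : ℝ) / (2 * q) ≤ nd (2 * ξ * h) := by
      have h7 : (r : ℝ) / (2 * q) + 1 / (2 * q) ≤ (r : ℝ) / q := by
        rw [← add_div, div_le_div_iff₀ (by positivity) hq0]
        nlinarith
      linarith
    have h8 : 0 < nd (2 * ξ * h) := lt_of_lt_of_le (by positivity) h6
    have h9 := geom_bound' (2 * ξ * h) (x * h + ξ * h ^ 2) (N - h) h8
    refine h9.trans ?_
    rw [mul_one_div, div_le_div_iff₀ (by positivity) (by positivity)]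
    rw [div_le_iff₀ (by positivity)] at h6
    nlinarith
  -- multiples
  have hmult : ∀ j : ℕ, 1 ≤ j → j ≤ N / q → T (q * j) ≤ 1 / (2 * q * β) * (1 / (j : ℝ)) := by
    intro j hj1 hj2
    have hjN : q * j ≤ N := by
      rw [Nat.le_div_iff_mul_le (by omega)] at hj2
      rw [mul_comm]; exact hj2
    have hj0 : (0 : ℝ) < j := by exact_mod_cast hj1
    have h1 : ((q * j : ℕ) : ℝ) * β ≤ 1 / 2 := by
      have h2 : ((q * j : ℕ) : ℝ) ≤ N := by exact_mod_cast hjN
      have h3 : 1 / (2 * (q : ℝ)) ≤ 1 / 2 := by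
        apply one_div_le_one_div_of_le (by norm_num)
        have : (1 : ℝ) ≤ q := by exact_mod_cast hq
        linarith
      nlinarith
    have hpos : 0 < ((q * j : ℕ) : ℝ) * β := by
      have : (0 : ℝ) < ((q * j : ℕ) : ℝ) := by push_cast; positivity
      positivity
    have h2 : |((q * j : ℕ) : ℝ) * β| ≤ 1 / 2 := by rw [abs_of_pos hpos]; exact h1
    have h3 := nd_ge h2 (j * a)
    have h4 : ((q * j : ℕ) : ℝ) * β + ((j * a : ℤ) : ℝ) = 2 * ξ * ((q * j : ℕ) : ℝ) := by
      rw [hξ]; push_cast; field_simp; ring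
    rw [h4, abs_of_pos hpos] at h3
    have h5 := geom_bound' (2 * ξ * ((q * j : ℕ) : ℝ)) (x * ((q * j : ℕ) : ℝ) + ξ * ((q * j : ℕ) : ℝ) ^ 2)
      (N - q * j) (lt_of_lt_of_le hpos h3)
    refine h5.trans ?_
    rw [div_mul_div_comm, one_mul]
    apply one_div_le_one_div_of_le (by positivity)
    calc 2 * (q : ℝ) * β * j = 2 * (((q * j : ℕ) : ℝ) * β) := by push_cast; ring
      _ ≤ _ := by linarith
  -- the sum
  have hsum : ∑ h ∈ range N, T h ≤ N + ∑ h ∈ range N, F ((h : ZMod q) * (a : ZMod q)) +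
      ∑ h ∈ (range N).filter (fun h => h ≠ 0 ∧ q ∣ h), T h := by
    rw [sum_filter]
    calc ∑ h ∈ range N, T h ≤ ∑ h ∈ range N, ((if h = 0 then (N : ℝ) else 0) +
          F ((h : ZMod q) * (a : ZMod q)) + (if h ≠ 0 ∧ q ∣ h then T h else 0)) := by
          apply sum_le_sum
          intro h hh
          have hF1 := hF0 ((h : ZMod q) * (a : ZMod q))
          by_cases h0 : h = 0
          · rw [if_pos h0, if_neg (by simp [h0])]
            have := hTN h
            linarith
          · rw [if_neg h0]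
            by_cases hqh : q ∣ h
            · rw [if_pos ⟨h0, hqh⟩]; linarith
            · rw [if_neg (fun h' => hqh h'.2)]
              have := hnon h hh h0 hqh
              linarith
      _ ≤ _ := by
          rw [sum_add_distrib, sum_add_distrib, sum_ite_eq' (range N) 0]
          have : (if 0 ∈ range N then (N : ℝ) else 0) ≤ N := by
            split_ifs
            · exact le_rfl
            · positivity
          linarith
  have hblock : ∑ h ∈ range N, F ((h : ZMod q) * (a : ZMod q)) ≤ 2 * (N + q) * (1 + Real.log q) := by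
    refine (sum_block a ha F hF0 N).trans ?_
    have h1 : ∑ s : ZMod q, F s = q * ∑ s : ZMod q, (if s = 0 then (0 : ℝ) else 1 / (s.valMinAbs.natAbs : ℝ)) := by
      rw [mul_sum]
      apply sum_congr rfl
      intro s _
      simp only [hF]
      by_cases h : s = 0 <;> simp [h]
    rw [h1]
    have h2 := sum_res_inv (q := q)
    have h3 : 0 ≤ ((N : ℝ) / q + 1) := by positivity
    calc ((N : ℝ) / q + 1) * (q * ∑ s : ZMod q, (if s = 0 then (0 : ℝ) else 1 / (s.valMinAbs.natAbs : ℝ)))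
        ≤ ((N : ℝ) / q + 1) * (q * (2 * (1 + Real.log q))) := by gcongr
      _ = _ := by field_simp
  have hlast : ∑ h ∈ (range N).filter (fun h => h ≠ 0 ∧ q ∣ h), T h ≤
      min ((N : ℝ) ^ 2 / q) ((1 + Real.log N) / (2 * q * β)) := by
    refine (sum_mult hq T hT0 N).trans (le_min ?_ ?_)
    · calc ∑ j ∈ Icc 1 (N / q), T (q * j) ≤ ∑ j ∈ Icc 1 (N / q), (N : ℝ) := sum_le_sum fun j _ => hTN _
        _ = ((N / q : ℕ) : ℝ) * N := by rw [sum_const, Nat.card_Icc, nsmul_eq_mul]; simp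
        _ ≤ ((N : ℝ) / q) * N := mul_le_mul_of_nonneg_right Nat.cast_div_le (Nat.cast_nonneg _)
        _ = _ := by ring
    · calc ∑ j ∈ Icc 1 (N / q), T (q * j) ≤ ∑ j ∈ Icc 1 (N / q), 1 / (2 * q * β) * (1 / (j : ℝ)) :=
            sum_le_sum fun j hj => hmult j (mem_Icc.1 hj).1 (mem_Icc.1 hj).2
        _ = 1 / (2 * q * β) * ∑ j ∈ Icc 1 (N / q), 1 / (j : ℝ) := by rw [mul_sum]
        _ ≤ 1 / (2 * q * β) * (1 + Real.log N) := by
            apply mul_le_mul_of_nonneg_left _ (by positivity)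
            calc ∑ j ∈ Icc 1 (N / q), 1 / (j : ℝ) ≤ ∑ j ∈ Icc 1 N, 1 / (j : ℝ) :=
                  sum_le_sum_of_subset_of_nonneg (Icc_subset_Icc le_rfl (Nat.div_le_self _ _))
                    fun _ _ _ => by positivity
              _ ≤ _ := sum_inv_le_log N
        _ = _ := by ring
  linarith

end Pool.Agent.H621.WS
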