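import Pool.Agent.H621.WS.B

set_option autoImplicit false

/-! The number `ξ` with prescribed approximations and the upper bound for the quadratic sums. -/

namespace Pool.Agent.H621.WS
open Finset

/-- `n` grows like `n (k + 1) ≈ μ n k`. -/
structure Seq (μ : ℝ) (n : ℕ → ℕ) : Prop where
  start : 2 ≤ n 0
  lo : ∀ k, μ * n k ≤ n (k + 1)
  hi : ∀ k, (n (k + 1) : ℝ) ≤ μ * n k + 1

lemma exists_seq (μ : ℝ) (hμ : 3 ≤ μ) : ∃ n : ℕ → ℕ, Seq μ n := by
  refine ⟨fun k => Nat.rec 2 (fun _ m => ⌈μ * m⌉₊) k, le_rfl, fun k => ?_, fun k => ?_⟩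
  · exact Nat.le_ceil _
  · exact (Nat.ceil_lt_add_one (by positivity)).le

namespace Seq

variable {μ : ℝ} {n : ℕ → ℕ} (h : Seq μ n) (hμ : 3 ≤ μ)

include h hμ in
lemma two_le (k : ℕ) : 2 ≤ n k := by
  induction k with
  | zero => exact h.start
  | succ k ih =>
    have h1 := h.lo k
    have h2 : (2 : ℝ) ≤ n k := by exact_mod_cast ih
    have h3 : (2 : ℝ) ≤ n (k + 1) := by nlinarith
    exact_mod_cast h3

include h hμ in
lemma three_mul_le (k : ℕ) : 3 * n k ≤ n (k + 1) := by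
  have h1 := h.lo k
  have h2 : (0 : ℝ) ≤ n k := Nat.cast_nonneg _
  have h3 : (3 : ℝ) * n k ≤ n (k + 1) := by nlinarith
  exact_mod_cast h3

include h hμ in
lemma lt_succ (k : ℕ) : n k < n (k + 1) := by
  have h1 := h.three_mul_le hμ k
  have h2 := h.two_le hμ k
  omega

include h hμ in
lemma strictMono : StrictMono n := strictMono_nat_of_lt_succ (h.lt_succ hμ)

end Seq

lemma add_le_of_strictMono {n : ℕ → ℕ} (hn : StrictMono n) (m j : ℕ) : n m + j ≤ n (j + m) := by
  induction j with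
  | zero => simp
  | succ j ih =>
    have := hn (show j + m < j + 1 + m by omega)
    omega

lemma half_pow_le {a b : ℕ} (h : a ≤ b) : (1 / 2 : ℝ) ^ b ≤ (1 / 2 : ℝ) ^ a :=
  pow_le_pow_of_le_one (by norm_num) (by norm_num) h

lemma summable_half {n : ℕ → ℕ} (hn : StrictMono n) (m : ℕ) : Summable fun j => (1 / 2 : ℝ) ^ n (j + m) := by
  have h1 : Summable fun j : ℕ => (1 / 2 : ℝ) ^ n m * (1 / 2 : ℝ) ^ j :=
    (summable_geometric_of_lt_one (by norm_num) (by norm_num)).mul_left _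
  refine Summable.of_nonneg_of_le (fun j => by positivity) (fun j => ?_) h1
  rw [← pow_add]
  exact half_pow_le (add_le_of_strictMono hn m j)

/-- the tail -/
noncomputable def tail (n : ℕ → ℕ) (m : ℕ) : ℝ := ∑' j, (1 / 2 : ℝ) ^ n (j + m)

lemma tail_le {n : ℕ → ℕ} (hn : StrictMono n) (m : ℕ) : tail n m ≤ 2 * (1 / 2 : ℝ) ^ n m := by
  have h1 : Summable fun j : ℕ => (1 / 2 : ℝ) ^ n m * (1 / 2 : ℝ) ^ j :=
    (summable_geometric_of_lt_one (by norm_num) (by norm_num)).mul_left _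
  have h2 : ∑' j : ℕ, (1 / 2 : ℝ) ^ n m * (1 / 2 : ℝ) ^ j = 2 * (1 / 2 : ℝ) ^ n m := by
    rw [tsum_mul_left, tsum_geometric_of_lt_one (by norm_num) (by norm_num)]
    norm_num
    ring
  rw [← h2]
  refine Summable.tsum_le_tsum (fun j => ?_) (summable_half hn m) h1
  rw [← pow_add]
  exact half_pow_le (add_le_of_strictMono hn m j)

lemma le_tail {n : ℕ → ℕ} (hn : StrictMono n) (m : ℕ) : (1 / 2 : ℝ) ^ n m ≤ tail n m := by
  have h1 := (summable_half hn m).le_tsum 0 (fun j _ => by positivity)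
  rw [Nat.zero_add] at h1
  exact h1

/-- numerators of the partial sums -/
def num (n : ℕ → ℕ) (k : ℕ) : ℕ := ∑ j ∈ range (k + 1), 2 ^ (n k - n j)

lemma num_odd {n : ℕ → ℕ} (hn : StrictMono n) (k : ℕ) : Odd (num n k) := by
  unfold num
  rw [sum_range_succ, Nat.sub_self, pow_zero]
  refine Even.add_one ?_
  refine Finset.even_sum _ fun j hj => ?_
  have h1 := hn (mem_range.1 hj)
  exact (Nat.even_pow.2 ⟨even_two, by omega⟩)

lemma isUnit_num {n : ℕ → ℕ} (hn : StrictMono n) (k m : ℕ) :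
    IsUnit (((num n k : ℤ) : ℤ) : ZMod (2 ^ m)) := by
  have h1 : Nat.Coprime (num n k) (2 ^ m) := by
    apply Nat.Coprime.pow_right
    exact Nat.Coprime.symm ((Nat.coprime_two_left).2 (num_odd hn k))
  have := (ZMod.isUnit_iff_coprime (num n k) (2 ^ m)).2 h1
  simpa using this

lemma tail_zero_eq {n : ℕ → ℕ} (hn : StrictMono n) (k : ℕ) :
    tail n 0 = ((num n k : ℤ) : ℝ) / ((2 ^ n k : ℕ) : ℝ) + tail n (k + 1) := by
  have h1 : ∑ j ∈ range (k + 1), (1 / 2 : ℝ) ^ n j = ((num n k : ℤ) : ℝ) / ((2 ^ n k : ℕ) : ℝ) := by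
    unfold num
    push_cast
    rw [eq_div_iff (by positivity), sum_mul]
    apply sum_congr rfl
    intro j hj
    have h2 : n j ≤ n k := hn.monotone (by have := mem_range.1 hj; omega)
    rw [one_div, inv_pow]
    have h3 : (2 : ℝ) ^ n k = 2 ^ n j * 2 ^ (n k - n j) := by rw [← pow_add, Nat.add_sub_cancel' h2]
    rw [h3, ← mul_assoc, inv_mul_cancel₀ (by positivity), one_mul]
  rw [← h1]
  have h2 : Summable fun j => (1 / 2 : ℝ) ^ n j := by simpa using summable_half hn 0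
  have h3 := h2.sum_add_tsum_nat_add (k + 1)
  unfold tail
  rw [h3]
  simp

/-- the second coordinate -/
noncomputable def xi (n : ℕ → ℕ) : ℝ := tail n 0 / 2

lemma two_xi (n : ℕ → ℕ) : 2 * xi n = tail n 0 := by unfold xi; ring

lemma xi_mem {n : ℕ → ℕ} (hn : StrictMono n) (h2 : 2 ≤ n 0) : 0 ≤ xi n ∧ xi n < 1 := by
  have h1 := tail_le hn 0
  have h3 := le_tail hn 0
  have h4 : (1 / 2 : ℝ) ^ n 0 ≤ (1 / 2) ^ 2 := half_pow_le h2
  have h5 : (0 : ℝ) < (1 / 2 : ℝ) ^ n 0 := by positivity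
  unfold xi
  constructor
  · linarith
  · norm_num at h4
    linarith

/-- The upper bound, in the range `2 ^ n k ≤ N < 2 ^ n (k + 1)`. -/
lemma Q_upper_aux {μ : ℝ} {n : ℕ → ℕ} (h : Seq μ n) (hμ : 3 ≤ μ) (k : ℕ) (x : ℝ) (N : ℕ)
    (hN1 : 2 ^ n k ≤ N) (hN2 : N < 2 ^ n (k + 1)) :
    ‖Q x (xi n) N‖ ^ 2 ≤ 448 * (1 + Real.log N) * (N : ℝ) ^ (2 - 2 / μ) := by
  have hn := h.strictMono hμ
  have hμ0 : (0 : ℝ) < μ := by linarith
  set q : ℕ := 2 ^ n k with hq
  have hq1 : 1 ≤ q := Nat.one_le_two_pow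
  have hq0 : (0 : ℝ) < q := by exact_mod_cast hq1
  have hNq : (q : ℝ) ≤ N := by exact_mod_cast hN1
  have hN0 : (0 : ℝ) < N := lt_of_lt_of_le hq0 hNq
  have hN1' : (1 : ℝ) ≤ N := by exact_mod_cast (hq1.trans hN1)
  have hlogN : 0 ≤ Real.log N := Real.log_nonneg hN1'
  have hlogq : Real.log q ≤ Real.log N := Real.log_le_log hq0 hNq
  set β := tail n (k + 1) with hβ
  have hβlo : (1 / 2 : ℝ) ^ n (k + 1) ≤ β := le_tail hn _
  have hβhi : β ≤ 2 * (1 / 2 : ℝ) ^ n (k + 1) := tail_le hn _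
  have hβ0 : 0 < β := lt_of_lt_of_le (by positivity) hβlo
  have h3 := h.three_mul_le hμ k
  have h2 := h.two_le hμ k
  set m := n (k + 1) - n k with hm
  have hmn : n (k + 1) = n k + m := by omega
  set q' : ℝ := (2 : ℝ) ^ m with hq'
  have hq'0 : 0 < q' := by positivity
  set L : ℕ := 2 ^ (m - 2) with hL
  have hL4 : (L : ℝ) = q' / 4 := by
    have h2m : (2 : ℝ) ^ m = 2 ^ (m - 2) * 4 := by
      rw [show (4 : ℝ) = 2 ^ 2 by norm_num, ← pow_add]
      congr 1
      omega
    rw [hL, hq', h2m]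
    push_cast
    ring
  have hqq' : (q : ℝ) ≤ q' := by
    rw [hq, hq']
    push_cast
    exact pow_le_pow_right₀ (by norm_num) (by omega)
  have hhalf : (1 / 2 : ℝ) ^ n (k + 1) = 1 / (q * q') := by
    rw [hmn, pow_add, one_div_pow, one_div_pow, hq, hq']
    push_cast
    field_simp
  have hbound : ∀ y : ℝ, ∀ M : ℕ, M ≤ L → ‖Q y (xi n) M‖ ^ 2 ≤ 2 * (M + 2 * (M + q) * (1 + Real.log q) +
      min ((M : ℝ) ^ 2 / q) ((1 + Real.log M) * q' / 2)) := by
    intro y M hM
    have hML : (M : ℝ) ≤ q' / 4 := by rw [← hL4]; exact_mod_cast hM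
    have h4 : (M : ℝ) * β ≤ 1 / (2 * q) := by
      calc (M : ℝ) * β ≤ (q' / 4) * (2 * (1 / (q * q'))) := by
            rw [← hhalf]
            exact mul_le_mul hML hβhi hβ0.le (by positivity)
        _ = _ := by field_simp; ring
    have h5 := Q_bound hq1 (num n k : ℤ) (isUnit_num hn k (n k)) (xi n) β hβ0
      (by rw [two_xi]; exact tail_zero_eq hn k) y M h4
    refine h5.trans ?_
    have hlogM : 0 ≤ 1 + Real.log M := by
      rcases Nat.eq_zero_or_pos M with h0 | h0
      · subst h0; simp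
      · have : 0 ≤ Real.log M := Real.log_nonneg (by exact_mod_cast h0)
        linarith
    have h6 : (1 + Real.log M) / (2 * q * β) ≤ (1 + Real.log M) * q' / 2 := by
      rw [div_le_iff₀ (by positivity)]
      have h7 : 1 ≤ q' * q * β := by
        calc 1 = q' * q * (1 / (q * q')) := by field_simp
          _ ≤ q' * q * β := by rw [← hhalf]; gcongr
      nlinarith
    have h8 := min_le_min_left ((M : ℝ) ^ 2 / q) h6
    linarith
  have hexp : (0 : ℝ) < 2 - 2 / μ := by
    have : 2 / μ ≤ 2 / 3 := by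
      apply div_le_div_of_nonneg_left (by norm_num) (by norm_num) hμ
    linarith
  have hexp1 : (1 : ℝ) ≤ 2 - 2 / μ := by
    have : 2 / μ ≤ 2 / 3 := by
      apply div_le_div_of_nonneg_left (by norm_num) (by norm_num) hμ
    linarith
  have hNN : (N : ℝ) ≤ (N : ℝ) ^ (2 - 2 / μ) := by
    conv_lhs => rw [← Real.rpow_one (N : ℝ)]
    exact Real.rpow_le_rpow_of_exponent_le hN1' hexp1
  have hpow0 : 0 < (N : ℝ) ^ (2 - 2 / μ) := Real.rpow_pos_of_pos hN0 _
  rcases le_or_gt N L with hNL | hNL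
  · -- short sums
    have h4 := hbound x N hNL
    have hmin : min ((N : ℝ) ^ 2 / q) ((1 + Real.log N) * q' / 2) ≤ (1 + Real.log N) * (2 * (N : ℝ) ^ (2 - 2 / μ)) := by
      have h5 : min ((N : ℝ) ^ 2 / q) ((1 + Real.log N) * q' / 2) ≤ (1 + Real.log N) * min ((N : ℝ) ^ 2 / q) q' := by
        rcases le_total ((N : ℝ) ^ 2 / q) q' with h6 | h6
        · rw [min_eq_left h6]
          refine (min_le_left _ _).trans ?_
          have : 0 ≤ (N : ℝ) ^ 2 / q := by positivity
          nlinarith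
        · rw [min_eq_right h6]
          refine (min_le_right _ _).trans ?_
          have : 0 ≤ (1 + Real.log N) * q' := by positivity
          linarith
      refine h5.trans (mul_le_mul_of_nonneg_left ?_ (by linarith))
      -- interpolation
      have hu : (0 : ℝ) < (N : ℝ) ^ 2 / q := by positivity
      have hθ : (0 : ℝ) ≤ 1 / μ := by positivity
      have hθ1 : 0 ≤ 1 - 1 / μ := by
        have : 1 / μ ≤ 1 / 3 := one_div_le_one_div_of_le (by norm_num) hμ
        linarith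
      have h6 : min ((N : ℝ) ^ 2 / q) q' ≤ ((N : ℝ) ^ 2 / q) ^ (1 - 1 / μ) * q' ^ (1 / μ) := by
        set w := min ((N : ℝ) ^ 2 / q) q' with hw
        have hw0 : 0 < w := lt_min hu hq'0
        calc w = w ^ (1 - 1 / μ) * w ^ (1 / μ) := by
              rw [← Real.rpow_add hw0]; simp
          _ ≤ _ := mul_le_mul (Real.rpow_le_rpow hw0.le (min_le_left _ _) hθ1)
              (Real.rpow_le_rpow hw0.le (min_le_right _ _) hθ) (by positivity) (by positivity)
      refine h6.trans ?_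
      have h7 : q' ≤ 2 * (q : ℝ) ^ (μ - 1) := by
        have h8 : (m : ℝ) ≤ (μ - 1) * n k + 1 := by
          have h9 := h.hi k
          rw [hmn] at h9
          push_cast at h9
          linarith
        calc q' = (2 : ℝ) ^ (m : ℝ) := by rw [hq', Real.rpow_natCast]
          _ ≤ (2 : ℝ) ^ ((μ - 1) * n k + 1) := Real.rpow_le_rpow_of_exponent_le (by norm_num) h8
          _ = 2 * (q : ℝ) ^ (μ - 1) := by
            rw [Real.rpow_add (by norm_num), Real.rpow_one, mul_comm, hq]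
            push_cast
            rw [← Real.rpow_natCast, ← Real.rpow_mul (by norm_num), mul_comm (μ - 1)]
      have h10 : q' ^ (1 / μ) ≤ 2 * (q : ℝ) ^ (1 - 1 / μ) := by
        calc q' ^ (1 / μ) ≤ (2 * (q : ℝ) ^ (μ - 1)) ^ (1 / μ) := Real.rpow_le_rpow hq'0.le h7 hθ
          _ = 2 ^ (1 / μ) * (q : ℝ) ^ (1 - 1 / μ) := by
            rw [Real.mul_rpow (by norm_num) (by positivity), ← Real.rpow_mul hq0.le]
            congr 2
            field_simp
          _ ≤ 2 * (q : ℝ) ^ (1 - 1 / μ) := by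
            apply mul_le_mul_of_nonneg_right _ (by positivity)
            calc (2 : ℝ) ^ (1 / μ) ≤ 2 ^ (1 : ℝ) :=
                  Real.rpow_le_rpow_of_exponent_le (by norm_num) (by linarith)
              _ = 2 := Real.rpow_one _
      calc ((N : ℝ) ^ 2 / q) ^ (1 - 1 / μ) * q' ^ (1 / μ)
          ≤ ((N : ℝ) ^ 2 / q) ^ (1 - 1 / μ) * (2 * (q : ℝ) ^ (1 - 1 / μ)) := by gcongr
        _ = 2 * (((N : ℝ) ^ 2) ^ (1 - 1 / μ)) := by
          rw [Real.div_rpow (by positivity) hq0.le]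
          have : (q : ℝ) ^ (1 - 1 / μ) ≠ 0 := (Real.rpow_pos_of_pos hq0 _).ne'
          field_simp
        _ = 2 * (N : ℝ) ^ (2 - 2 / μ) := by
          rw [← Real.rpow_natCast, ← Real.rpow_mul hN0.le]
          congr 2
          push_cast
          ring
    have h5 : ‖Q x (xi n) N‖ ^ 2 ≤ 2 * ((1 + Real.log N) * (7 * (N : ℝ) ^ (2 - 2 / μ))) := by
      refine h4.trans (mul_le_mul_of_nonneg_left ?_ (by norm_num))
      have h6 : (N : ℝ) + 2 * (N + q) * (1 + Real.log q) ≤ (1 + Real.log N) * (5 * (N : ℝ) ^ (2 - 2 / μ)) := by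
        have h7 : 2 * ((N : ℝ) + q) * (1 + Real.log q) ≤ 4 * N * (1 + Real.log N) := by
          have : 0 ≤ 1 + Real.log q := by
            have : 0 ≤ Real.log q := Real.log_nonneg (by exact_mod_cast hq1)
            linarith
          apply mul_le_mul (by linarith) (by linarith) this (by positivity)
        have h8 : (N : ℝ) ≤ N * (1 + Real.log N) := by nlinarith
        have h9 : (N : ℝ) * (1 + Real.log N) ≤ (1 + Real.log N) * (N : ℝ) ^ (2 - 2 / μ) := by
          rw [mul_comm]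
          exact mul_le_mul_of_nonneg_left hNN (by linarith)
        linarith
      linarith
    refine h5.trans ?_
    have : 0 ≤ (1 + Real.log N) * (N : ℝ) ^ (2 - 2 / μ) := by positivity
    nlinarith
  · -- long sums
    have hL1 : 1 ≤ L := Nat.one_le_two_pow
    have hLR : (0 : ℝ) < L := by exact_mod_cast hL1
    set B := Real.sqrt (7 * (1 + Real.log N) * q') with hB
    have hBound : ∀ y, ∀ M ≤ L, ‖Q y (xi n) M‖ ≤ B := by
      intro y M hM
      apply Real.le_sqrt_of_sq_le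
      refine (hbound y M hM).trans ?_
      have hML : (M : ℝ) ≤ q' / 4 := by rw [← hL4]; exact_mod_cast hM
      have hlogM : Real.log M ≤ Real.log N := by
        rcases Nat.eq_zero_or_pos M with h0 | h0
        · subst h0; simpa using hlogN
        · exact Real.log_le_log (by exact_mod_cast h0) (by exact_mod_cast (hM.trans hNL.le))
      have h6 : min ((M : ℝ) ^ 2 / q) ((1 + Real.log M) * q' / 2) ≤ (1 + Real.log N) * q' / 2 := by
        refine (min_le_right _ _).trans ?_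
        have : Real.log M * q' ≤ Real.log N * q' := mul_le_mul_of_nonneg_right hlogM hq'0.le
        linarith
      have h7 : 2 * ((M : ℝ) + q) * (1 + Real.log q) ≤ 2 * (q' / 4 + q') * (1 + Real.log N) := by
        have : 0 ≤ 1 + Real.log q := by
          have : 0 ≤ Real.log q := Real.log_nonneg (by exact_mod_cast hq1)
          linarith
        apply mul_le_mul (by linarith) (by linarith) this (by positivity)
      have hX : 0 ≤ q' * Real.log N := by positivity
      have h8 : (M : ℝ) ≤ q' / 4 * (1 + Real.log N) := by linarith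
      linarith
    have h5 := Q_split (xi n) L hL1 B hBound x N
    have hNL' : (L : ℝ) ≤ N := by exact_mod_cast hNL.le
    have h6 : (N : ℝ) / L + 1 ≤ 8 * N / q' := by
      have h7 : 1 ≤ (N : ℝ) / L := by rw [le_div_iff₀ hLR]; linarith
      have h8 : (N : ℝ) / L = 4 * N / q' := by rw [hL4]; field_simp
      rw [h8] at h7 ⊢
      have : 8 * (N : ℝ) / q' = 4 * N / q' + 4 * N / q' := by ring
      linarith
    have hB0 : 0 ≤ B := Real.sqrt_nonneg _
    have h7 : ‖Q x (xi n) N‖ ≤ 8 * N / q' * B := h5.trans (mul_le_mul_of_nonneg_right h6 hB0)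
    have h8 : ‖Q x (xi n) N‖ ^ 2 ≤ (8 * N / q' * B) ^ 2 := pow_le_pow_left₀ (norm_nonneg _) h7 2
    have h9 : (8 * N / q' * B) ^ 2 = 448 * (1 + Real.log N) * ((N : ℝ) ^ 2 / q') := by
      rw [mul_pow, hB, Real.sq_sqrt (by positivity)]
      field_simp
      norm_num
    rw [h9] at h8
    refine h8.trans (mul_le_mul_of_nonneg_left ?_ (by positivity))
    -- N^2 / q' ≤ N^(2 - 2/μ)
    rw [div_le_iff₀ hq'0]
    have h10 : (N : ℝ) ^ (2 / μ) ≤ q' := by
      have h11 : (2 / μ) * (n (k + 1) : ℝ) ≤ m := by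
        have h12 := h.lo k
        have h13 : (n k : ℝ) ≤ n (k + 1) / μ := by rw [le_div_iff₀ hμ0]; linarith
        have h14 : (m : ℝ) = n (k + 1) - n k := by
          rw [hmn]; push_cast; ring
        rw [h14]
        have h15 : (3 / μ) * (n (k + 1) : ℝ) ≤ n (k + 1) := by
          have : 3 / μ ≤ 1 := by rw [div_le_one hμ0]; exact hμ
          have h16 : (0 : ℝ) ≤ n (k + 1) := Nat.cast_nonneg _
          nlinarith
        have h17 : (3 / μ) * (n (k + 1) : ℝ) = (2 / μ) * n (k + 1) + n (k + 1) / μ := by field_simp; ring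
        linarith
      calc (N : ℝ) ^ (2 / μ) ≤ ((2 : ℝ) ^ n (k + 1)) ^ (2 / μ) := by
            apply Real.rpow_le_rpow hN0.le _ (by positivity)
            exact_mod_cast hN2.le
        _ = (2 : ℝ) ^ ((2 / μ) * (n (k + 1) : ℝ)) := by
            rw [← Real.rpow_natCast, ← Real.rpow_mul (by norm_num), mul_comm]
        _ ≤ (2 : ℝ) ^ (m : ℝ) := Real.rpow_le_rpow_of_exponent_le (by norm_num) h11
        _ = q' := by rw [hq', Real.rpow_natCast]
    calc (N : ℝ) ^ 2 = (N : ℝ) ^ (2 - 2 / μ) * (N : ℝ) ^ (2 / μ) := by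
          rw [← Real.rpow_add hN0, ← Real.rpow_natCast]
          congr 1
          push_cast
          ring
      _ ≤ _ := mul_le_mul_of_nonneg_left h10 hpow0.le

/-- **The upper bound.** -/
theorem Q_upper {μ : ℝ} {n : ℕ → ℕ} (h : Seq μ n) (hμ : 3 ≤ μ) :
    ∃ C : ℝ, 0 < C ∧ ∀ (x : ℝ) (N : ℕ), 1 ≤ N →
      ‖Q x (xi n) N‖ ^ 2 ≤ C * (1 + Real.log N) * (N : ℝ) ^ (2 - 2 / μ) := by
  have hn := h.strictMono hμ
  refine ⟨448 + (2 ^ n 0 : ℝ) ^ 2, by positivity, ?_⟩
  intro x N hN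
  have hN1' : (1 : ℝ) ≤ N := by exact_mod_cast hN
  have hlogN : 0 ≤ Real.log N := Real.log_nonneg hN1'
  have hexp : (0 : ℝ) ≤ 2 - 2 / μ := by
    have : 2 / μ ≤ 2 / 3 := by
      apply div_le_div_of_nonneg_left (by norm_num) (by norm_num) hμ
    linarith
  have hpow : 1 ≤ (N : ℝ) ^ (2 - 2 / μ) := Real.one_le_rpow hN1' hexp
  rcases lt_or_ge N (2 ^ n 0) with hlt | hge
  · have h1 := norm_Q_le x (xi n) N
    have h2 : (N : ℝ) ≤ 2 ^ n 0 := by exact_mod_cast hlt.le
    have h3 : ‖Q x (xi n) N‖ ^ 2 ≤ ((2 : ℝ) ^ n 0) ^ 2 := pow_le_pow_left₀ (norm_nonneg _) (h1.trans h2) 2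
    have h4 : 1 ≤ (1 + Real.log N) * (N : ℝ) ^ (2 - 2 / μ) := one_le_mul_of_one_le_of_one_le (by linarith) hpow
    have h5 : (0 : ℝ) ≤ ((2 : ℝ) ^ n 0) ^ 2 := by positivity
    nlinarith
  · obtain ⟨k, hk1, hk2⟩ : ∃ k, 2 ^ n k ≤ N ∧ N < 2 ^ n (k + 1) := by
      have hex : ∃ k, N < 2 ^ n k := by
        refine ⟨N, ?_⟩
        calc N < 2 ^ N := Nat.lt_two_pow_self
          _ ≤ 2 ^ n N := Nat.pow_le_pow_right (by norm_num) (hn.id_le N)
      classical
      have hf := Nat.find_spec hex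
      have hpos : Nat.find hex ≠ 0 := by
        intro h0
        rw [h0] at hf
        omega
      obtain ⟨k, hk⟩ := Nat.exists_eq_succ_of_ne_zero hpos
      refine ⟨k, ?_, ?_⟩
      · have := Nat.find_min hex (m := k) (by omega)
        omega
      · rw [hk] at hf; exact hf
    have h1 := Q_upper_aux h hμ k x N hk1 hk2
    refine h1.trans ?_
    have h4 : 0 ≤ (1 + Real.log N) * (N : ℝ) ^ (2 - 2 / μ) := by positivity
    have h5 : (0 : ℝ) ≤ ((2 : ℝ) ^ n 0) ^ 2 := by positivity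
    nlinarith

end Pool.Agent.H621.WS
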