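import Pool.Agent.H621.WS.C

set_option autoImplicit false

/-! The lower bound for the quadratic sums: Gauss sums modulo powers of two. -/

namespace Pool.Agent.H621.WS
open Finset

lemma abel_eq (u c : ℕ → ℂ) (N : ℕ) : ∑ j ∈ range N, u j * c j =
    (∑ j ∈ range N, u j) * c N - ∑ j ∈ range N, (∑ i ∈ range (j + 1), u i) * (c (j + 1) - c j) := by
  induction N with
  | zero => simp
  | succ N ih =>
    rw [sum_range_succ, ih, sum_range_succ (fun j => (∑ i ∈ range (j + 1), u i) * (c (j + 1) - c j))]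
    rw [sum_range_succ u N]
    ring

lemma abel_bound (u c : ℕ → ℂ) (N : ℕ) (K V : ℝ) (hK : ∀ M ≤ N, ‖∑ j ∈ range M, u j‖ ≤ K) (hc : ‖c N‖ ≤ 1)
    (hV : ∑ j ∈ range N, ‖c (j + 1) - c j‖ ≤ V) : ‖∑ j ∈ range N, u j * c j‖ ≤ K * (1 + V) := by
  have hK0 : 0 ≤ K := (norm_nonneg _).trans (hK 0 (Nat.zero_le _))
  rw [abel_eq]
  calc _ ≤ ‖(∑ j ∈ range N, u j) * c N‖ + ‖∑ j ∈ range N, (∑ i ∈ range (j + 1), u i) * (c (j + 1) - c j)‖ :=
        norm_sub_le _ _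
    _ ≤ K * 1 + ∑ j ∈ range N, K * ‖c (j + 1) - c j‖ := by
        apply add_le_add
        · rw [norm_mul]
          exact mul_le_mul (hK N le_rfl) hc (norm_nonneg _) hK0
        · refine (norm_sum_le _ _).trans (sum_le_sum fun j hj => ?_)
          rw [norm_mul]
          exact mul_le_mul_of_nonneg_right (hK _ (by have := mem_range.1 hj; omega)) (norm_nonneg _)
    _ = K * (1 + ∑ j ∈ range N, ‖c (j + 1) - c j‖) := by rw [← mul_sum]; ring
    _ ≤ K * (1 + V) := by gcongr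

lemma sum_range_zmodC {q : ℕ} [NeZero q] (F : ZMod q → ℂ) :
    ∑ h ∈ range q, F (h : ZMod q) = ∑ s : ZMod q, F s := by
  refine sum_nbij' (fun h => (h : ZMod q)) (fun s => s.val) ?_ ?_ ?_ ?_ ?_
  · intro h _; exact mem_univ _
  · intro s _; exact mem_range.2 (ZMod.val_lt s)
  · intro h hh
    exact ZMod.val_cast_of_lt (mem_range.1 hh)
  · intro s _
    exact ZMod.natCast_zmod_val s
  · intro h _; rfl

lemma sum_periodC {q : ℕ} [NeZero q] (F : ZMod q → ℂ) (k : ℕ) :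
    ∑ h ∈ range (k * q), F (h : ZMod q) = k * ∑ s : ZMod q, F s := by
  induction k with
  | zero => simp
  | succ k ih =>
    rw [Nat.succ_mul, sum_range_add, ih]
    have h1 : ∑ x ∈ range q, F ((k * q + x : ℕ) : ZMod q) = ∑ x ∈ range q, F (x : ZMod q) := by
      apply sum_congr rfl
      intro x _
      congr 1
      push_cast
      simp
    rw [h1, sum_range_zmodC]
    push_cast
    ring

lemma e_eq_stdAddChar {q : ℕ} [NeZero q] (k : ℤ) : e ((k : ℝ) / q) = ZMod.stdAddChar (k : ZMod q) := by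
  rw [ZMod.stdAddChar_coe]
  unfold e
  congr 1
  push_cast
  ring

/-- the quadratic Gauss sums modulo powers of two -/
lemma gauss_ge (m : ℕ) (hm : 2 ≤ m) (a b c : ZMod (2 ^ m)) (ha : IsUnit a) (hb : b = 2 * c) :
    2 * (2 : ℝ) ^ m ≤ ‖∑ j : ZMod (2 ^ m), (ZMod.stdAddChar (b * j + a * j ^ 2) : ℂ)‖ ^ 2 := by
  have hq : NeZero (2 ^ m) := ⟨by positivity⟩
  set ψ : AddChar (ZMod (2 ^ m)) ℂ := ZMod.stdAddChar with hψ
  have hprim : ψ.IsPrimitive := ZMod.isPrimitive_stdAddChar _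
  have hconj : ∀ x, (starRingEnd ℂ) (ψ x) = ψ (-x) := fun x => (AddChar.map_neg_eq_conj ψ x).symm
  have h1 : (‖∑ j : ZMod (2 ^ m), ψ (b * j + a * j ^ 2)‖ ^ 2 : ℝ) =
      (∑ h : ZMod (2 ^ m), ψ (b * h + a * h ^ 2) * ∑ j : ZMod (2 ^ m), ψ (j * (2 * a * h))).re := by
    rw [← Complex.normSq_eq_norm_sq, ← Complex.ofReal_re (Complex.normSq _), ← Complex.mul_conj, map_sum, sum_mul]
    congr 1
    calc ∑ i : ZMod (2 ^ m), ψ (b * i + a * i ^ 2) * ∑ j : ZMod (2 ^ m), (starRingEnd ℂ) (ψ (b * j + a * j ^ 2))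
        = ∑ j : ZMod (2 ^ m), ∑ i : ZMod (2 ^ m), ψ (b * i + a * i ^ 2) * ψ (-(b * j + a * j ^ 2)) := by
          rw [sum_comm]
          apply sum_congr rfl
          intro i _
          rw [mul_sum]
          apply sum_congr rfl
          intro j _
          rw [hconj]
      _ = ∑ j : ZMod (2 ^ m), ∑ h : ZMod (2 ^ m), ψ (b * h + a * h ^ 2) * ψ (j * (2 * a * h)) := by
          apply sum_congr rfl
          intro j _
          refine (Fintype.sum_equiv (Equiv.addRight j) _ _ (fun h => ?_)).symm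
          rw [← AddChar.map_add_eq_mul, ← AddChar.map_add_eq_mul]
          congr 1
          simp only [Equiv.coe_addRight]
          ring
      _ = _ := by
          rw [sum_comm]
          apply sum_congr rfl
          intro h _
          rw [mul_sum]
  rw [h1]
  -- the two special values of `h`
  obtain ⟨k, rfl⟩ : ∃ k, m = k + 2 := ⟨m - 2, by omega⟩
  have h2z : ∀ h : ZMod (2 ^ (k + 2)), 2 * h = 0 → h * h = 0 := by
    intro h hh
    have h3 : ((2 * h.val : ℕ) : ZMod (2 ^ (k + 2))) = 0 := by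
      push_cast
      rw [ZMod.natCast_zmod_val]
      exact hh
    rw [ZMod.natCast_eq_zero_iff] at h3
    have h4 : 2 ^ (k + 1) ∣ h.val := by
      have h3' : 2 * 2 ^ (k + 1) ∣ 2 * h.val := by
        have : 2 ^ (k + 2) = 2 * 2 ^ (k + 1) := pow_succ' 2 (k + 1)
        exact this ▸ h3
      exact Nat.dvd_of_mul_dvd_mul_left (by norm_num) h3'
    have h5 : ((h.val * h.val : ℕ) : ZMod (2 ^ (k + 2))) = 0 := by
      rw [ZMod.natCast_eq_zero_iff]
      refine dvd_trans ?_ (mul_dvd_mul h4 h4)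
      rw [← pow_add]
      exact pow_dvd_pow 2 (by omega)
    push_cast at h5
    rwa [ZMod.natCast_zmod_val] at h5
  have hterm : ∀ h : ZMod (2 ^ (k + 2)), ψ (b * h + a * h ^ 2) * ∑ j : ZMod (2 ^ (k + 2)), ψ (j * (2 * a * h)) =
      if 2 * h = 0 then ((2 ^ (k + 2) : ℕ) : ℂ) else 0 := by
    intro h
    rw [AddChar.sum_mulShift (2 * a * h) hprim]
    have h6 : 2 * a * h = 0 ↔ 2 * h = 0 := by
      rw [show 2 * a * h = a * (2 * h) by ring]
      exact ha.mul_right_eq_zero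
    by_cases h7 : 2 * h = 0
    · rw [if_pos (h6.2 h7), if_pos h7]
      have h8 : b * h + a * h ^ 2 = 0 := by
        rw [hb, show 2 * c * h + a * h ^ 2 = c * (2 * h) + a * (h * h) by ring, h7, h2z h h7]
        ring
      rw [h8, AddChar.map_zero_eq_one, one_mul, ZMod.card]
    · rw [if_neg (fun h9 => h7 (h6.1 h9)), if_neg h7, Nat.cast_zero, mul_zero]
  rw [sum_congr rfl (fun h _ => hterm h), ← sum_filter, sum_const, nsmul_eq_mul]
  have hcard : 2 ≤ (univ.filter (fun h : ZMod (2 ^ (k + 2)) => 2 * h = 0)).card := by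
    have h9 : ({0, ((2 ^ (k + 1) : ℕ) : ZMod (2 ^ (k + 2)))} : Finset (ZMod (2 ^ (k + 2)))) ⊆
        univ.filter (fun h : ZMod (2 ^ (k + 2)) => 2 * h = 0) := by
      intro x hx
      rw [mem_insert, mem_singleton] at hx
      rw [mem_filter]
      refine ⟨mem_univ _, ?_⟩
      rcases hx with rfl | rfl
      · simp
      · have : ((2 * 2 ^ (k + 1) : ℕ) : ZMod (2 ^ (k + 2))) = 0 := by
          rw [ZMod.natCast_eq_zero_iff, ← pow_succ']
        push_cast at this ⊢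
        exact this
    have h10 : (0 : ZMod (2 ^ (k + 2))) ≠ ((2 ^ (k + 1) : ℕ) : ZMod (2 ^ (k + 2))) := by
      intro h11
      have h12 := (ZMod.natCast_eq_zero_iff _ _).1 h11.symm
      have := Nat.le_of_dvd (by positivity) h12
      have h13 : 2 ^ (k + 1) < 2 ^ (k + 2) := Nat.pow_lt_pow_right (by norm_num) (by omega)
      omega
    calc 2 = ({0, ((2 ^ (k + 1) : ℕ) : ZMod (2 ^ (k + 2)))} : Finset (ZMod (2 ^ (k + 2)))).card := by
          rw [card_pair h10]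
      _ ≤ _ := card_le_card h9
  rw [← Nat.cast_mul, Complex.natCast_re]
  push_cast
  have : (2 : ℝ) ≤ ((univ.filter (fun h : ZMod (2 ^ (k + 2)) => 2 * h = 0)).card : ℝ) := by exact_mod_cast hcard
  gcongr

/-- `x` is, for every `k`, close to a fraction with denominator `2 ^ (n k + 1)` and even numerator -/
def Good (n : ℕ → ℕ) (x : ℝ) : Prop :=
  ∀ k, ∃ b : ℤ, 0 ≤ x - ((2 * b : ℤ) : ℝ) / ((2 ^ (n k + 1) : ℕ) : ℝ) ∧
    x - ((2 * b : ℤ) : ℝ) / ((2 ^ (n k + 1) : ℕ) : ℝ) ≤ (1 / 2 : ℝ) ^ (n (k + 1) / 2)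

lemma Q_lower_aux {μ : ℝ} {n : ℕ → ℕ} (h : Seq μ n) (hμ : 3 ≤ μ) {x : ℝ} (hx : Good n x) (k : ℕ) (K : ℝ)
    (hK : ∀ M ≤ 2 ^ (n (k + 1) / 2), ‖Q x (xi n) M‖ ≤ K) :
    2 * (2 : ℝ) ^ (n k + 1) * ((2 : ℝ) ^ (n (k + 1) / 2)) ^ 2 ≤ (K * (1 + 6 * Real.pi)) ^ 2 * (2 ^ (n k + 1)) ^ 2 := by
  have hn := h.strictMono hμ
  obtain ⟨b, hb0, hb1⟩ := hx k
  set q : ℕ := 2 ^ (n k + 1) with hq
  have : NeZero q := ⟨by positivity⟩
  set N : ℕ := 2 ^ (n (k + 1) / 2) with hN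
  have h3 := h.three_mul_le hμ k
  have h2 := h.two_le hμ k
  have hmle : n k + 1 ≤ n (k + 1) / 2 := by omega
  obtain ⟨t, ht⟩ : q ∣ N := pow_dvd_pow 2 hmle
  set a : ZMod q := (((num n k : ℤ) : ℤ) : ZMod q) with ha
  set δ : ℝ := x - ((2 * b : ℤ) : ℝ) / (q : ℝ) with hδ
  set β : ℝ := tail n (k + 1) with hβ
  have hxi : xi n = ((num n k : ℤ) : ℝ) / q + β / 2 := by
    have h4 := tail_zero_eq hn k
    rw [← hβ] at h4
    unfold xi
    rw [h4, hq]
    push_cast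
    rw [pow_succ]
    field_simp
  -- the complete sum
  have hG := gauss_ge (n k + 1) (by omega) a (((2 * b : ℤ) : ℤ) : ZMod (2 ^ (n k + 1))) ((b : ℤ) : ZMod (2 ^ (n k + 1)))
    (isUnit_num hn k (n k + 1)) (by push_cast; ring)
  set G : ℂ := ∑ j : ZMod (2 ^ (n k + 1)), (ZMod.stdAddChar ((((2 * b : ℤ) : ℤ) : ZMod (2 ^ (n k + 1))) * j + a * j ^ 2) : ℂ) with hGdef
  have hper : ∑ j ∈ range N, e ((((2 * b) * j + (num n k : ℤ) * j ^ 2 : ℤ) : ℝ) / q) = t * G := by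
    have h5 : ∀ j : ℕ, e ((((2 * b) * j + (num n k : ℤ) * j ^ 2 : ℤ) : ℝ) / q) =
        (fun s : ZMod q => (ZMod.stdAddChar ((((2 * b : ℤ) : ℤ) : ZMod q) * s + a * s ^ 2) : ℂ)) (j : ZMod q) := by
      intro j
      rw [e_eq_stdAddChar, ha]
      congr 1
      push_cast
      ring
    rw [sum_congr rfl (fun j _ => h5 j), ht, mul_comm q t,
      sum_periodC (fun s : ZMod q => (ZMod.stdAddChar ((((2 * b : ℤ) : ℤ) : ZMod q) * s + a * s ^ 2) : ℂ)) t]
  -- partial summation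
  set u : ℕ → ℂ := fun j => e (x * j + xi n * (j : ℝ) ^ 2) with hu
  set c : ℕ → ℂ := fun j => e (-(δ * j + β / 2 * (j : ℝ) ^ 2)) with hc
  have huc : ∀ j, u j * c j = e ((((2 * b) * j + (num n k : ℤ) * j ^ 2 : ℤ) : ℝ) / q) := by
    intro j
    rw [hu, hc]
    simp only
    rw [← e_add, hxi, hδ]
    congr 1
    push_cast
    ring
  have hβ0 : 0 ≤ β := (by positivity : (0 : ℝ) ≤ (1 / 2 : ℝ) ^ n (k + 1)).trans (le_tail hn (k + 1))
  have hβ1 : β ≤ 2 * (1 / 2 : ℝ) ^ n (k + 1) := tail_le hn (k + 1)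
  have hNN : (N : ℝ) * (1 / 2 : ℝ) ^ (n (k + 1) / 2) = 1 := by
    rw [hN]
    push_cast
    rw [← mul_pow]
    norm_num
  have hN2 : (N : ℝ) ^ 2 * (1 / 2 : ℝ) ^ n (k + 1) ≤ 1 := by
    have h6 : (1 / 2 : ℝ) ^ n (k + 1) ≤ ((1 / 2 : ℝ) ^ (n (k + 1) / 2)) ^ 2 := by
      rw [← pow_mul]
      exact half_pow_le (by omega)
    calc (N : ℝ) ^ 2 * (1 / 2 : ℝ) ^ n (k + 1) ≤ (N : ℝ) ^ 2 * ((1 / 2 : ℝ) ^ (n (k + 1) / 2)) ^ 2 := by gcongr
      _ = ((N : ℝ) * (1 / 2 : ℝ) ^ (n (k + 1) / 2)) ^ 2 := by ring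
      _ = 1 := by rw [hNN]; norm_num
  have hV : ∑ j ∈ range N, ‖c (j + 1) - c j‖ ≤ 6 * Real.pi := by
    have h7 : ∀ j ∈ range N, ‖c (j + 1) - c j‖ ≤ 2 * Real.pi * (δ + β * N) := by
      intro j hj
      have hj1 : (j : ℝ) + 1 ≤ N := by exact_mod_cast mem_range.1 hj
      have hj0 : (0 : ℝ) ≤ j := Nat.cast_nonneg _
      have h8 : c (j + 1) - c j = c j * (e (-(δ + β / 2 * (2 * j + 1))) - 1) := by
        rw [mul_sub, mul_one, hc]
        simp only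
        rw [← e_add]
        congr 2
        push_cast
        ring
      rw [h8, norm_mul, hc]
      simp only
      rw [norm_e, one_mul]
      refine (norm_e_sub_one_le _).trans ?_
      rw [abs_neg, abs_of_nonneg (by positivity)]
      have : β / 2 * (2 * j + 1) ≤ β * N := by nlinarith
      have hpi := Real.pi_pos
      gcongr
    refine (sum_le_sum h7).trans ?_
    rw [sum_const, card_range, nsmul_eq_mul]
    have h9 : (N : ℝ) * δ ≤ 1 := by
      rw [← hNN]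
      gcongr
    have h10 : (N : ℝ) ^ 2 * β ≤ 2 := by
      calc (N : ℝ) ^ 2 * β ≤ (N : ℝ) ^ 2 * (2 * (1 / 2 : ℝ) ^ n (k + 1)) := by gcongr
        _ = 2 * ((N : ℝ) ^ 2 * (1 / 2 : ℝ) ^ n (k + 1)) := by ring
        _ ≤ 2 * 1 := by gcongr
        _ = 2 := by norm_num
    have hpi := Real.pi_pos
    nlinarith
  have hmain : ‖∑ j ∈ range N, u j * c j‖ ≤ K * (1 + 6 * Real.pi) :=
    abel_bound u c N K (6 * Real.pi) (fun M hM => hK M hM) (norm_e _).le hV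
  rw [sum_congr rfl (fun j _ => huc j), hper, norm_mul, Complex.norm_natCast] at hmain
  have hNt : (2 : ℝ) ^ (n (k + 1) / 2) = q * t := by
    have : (N : ℝ) = q * t := by exact_mod_cast ht
    rw [← this, hN]
    push_cast
    rfl
  have hqr : (2 : ℝ) ^ (n k + 1) = q := by rw [hq]; push_cast; rfl
  rw [hNt, hqr]
  rw [hqr] at hG
  have ht0 : (0 : ℝ) ≤ t := Nat.cast_nonneg _
  have h11 : ((t : ℝ) * ‖G‖) ^ 2 ≤ (K * (1 + 6 * Real.pi)) ^ 2 := by
    apply pow_le_pow_left₀ (by positivity) hmain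
  have hq0 : (0 : ℝ) < q := by positivity
  calc 2 * (q : ℝ) * (q * t) ^ 2 = (t : ℝ) ^ 2 * (2 * q) * (q : ℝ) ^ 2 := by ring
    _ ≤ (t : ℝ) ^ 2 * ‖G‖ ^ 2 * (q : ℝ) ^ 2 := by gcongr
    _ = ((t : ℝ) * ‖G‖) ^ 2 * (q : ℝ) ^ 2 := by ring
    _ ≤ (K * (1 + 6 * Real.pi)) ^ 2 * (q : ℝ) ^ 2 := by gcongr

theorem Q_lower {μ : ℝ} {n : ℕ → ℕ} (h : Seq μ n) (hμ : 3 ≤ μ) {x : ℝ} (hx : Good n x) (s C : ℝ) (hs : 0 ≤ s)
    (hC : ∀ M : ℕ, 1 ≤ M → ‖Q x (xi n) M‖ ≤ C * (M : ℝ) ^ s) : 1 - 1 / μ ≤ s := by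
  by_contra hcon
  push Not at hcon
  have hn := h.strictMono hμ
  have hC0 : 0 ≤ C := by
    have := (norm_nonneg _).trans (hC 1 le_rfl)
    simpa using this
  set ε : ℝ := 2 - 2 * s - 2 / μ with hε
  have hε0 : 0 < ε := by
    rw [hε]
    have : 2 / μ = 2 * (1 / μ) := by ring
    rw [this]
    linarith
  set D : ℝ := 2 * (C * (1 + 6 * Real.pi)) ^ 2 with hD
  -- choose `k` with `2 ^ (ε k) > D`
  obtain ⟨k, hk⟩ : ∃ k : ℕ, D < ((2 : ℝ) ^ ε) ^ k :=
    pow_unbounded_of_one_lt D (Real.one_lt_rpow (by norm_num) hε0)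
  set p : ℕ := n (k + 1) / 2 with hp
  have hkp : k ≤ p := by
    have h1 := h.three_mul_le hμ k
    have h2 := hn.id_le k
    simp only [id] at h2
    omega
  have hX1 : (1 : ℝ) ≤ (2 : ℝ) ^ p := one_le_pow₀ (by norm_num)
  have hX0 : (0 : ℝ) < (2 : ℝ) ^ p := by positivity
  have hK : ∀ M ≤ 2 ^ (n (k + 1) / 2), ‖Q x (xi n) M‖ ≤ C * ((2 : ℝ) ^ p) ^ s := by
    intro M hM
    rcases Nat.eq_zero_or_pos M with rfl | hM0
    · simp [Q]
      positivity
    · refine (hC M hM0).trans ?_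
      have : (M : ℝ) ≤ (2 : ℝ) ^ p := by exact_mod_cast hM
      gcongr
  have hmain := Q_lower_aux h hμ hx k _ hK
  rw [← hp] at hmain
  set X : ℝ := (2 : ℝ) ^ p with hX
  -- size of the modulus
  have hq : (2 : ℝ) ^ (n k + 1) ≤ 4 * X ^ (2 / μ) := by
    have hμ0 : 0 < μ := by linarith
    have h1 : (n k : ℝ) ≤ (2 * p + 1) / μ := by
      rw [le_div_iff₀ hμ0]
      have h2 := h.lo k
      have h3 : n (k + 1) ≤ 2 * p + 1 := by omega
      have h4 : (n (k + 1) : ℝ) ≤ 2 * p + 1 := by exact_mod_cast h3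
      linarith
    have h5 : (2 * p + 1) / μ ≤ 1 + 2 / μ * p := by
      have : (2 * p + 1) / μ = 2 / μ * p + 1 / μ := by ring
      rw [this]
      have : 1 / μ ≤ 1 := by
        rw [div_le_one hμ0]
        linarith
      linarith
    have h6 : X ^ (2 / μ) = (2 : ℝ) ^ (2 / μ * (p : ℝ)) := by
      rw [hX, ← Real.rpow_natCast, ← Real.rpow_mul (by norm_num)]
      congr 1
      ring
    calc (2 : ℝ) ^ (n k + 1) = 2 * (2 : ℝ) ^ ((n k : ℕ) : ℝ) := by rw [Real.rpow_natCast, pow_succ]; ring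
      _ ≤ 2 * (2 : ℝ) ^ (1 + 2 / μ * (p : ℝ)) := by
          gcongr
          · norm_num
          · linarith
      _ = 4 * X ^ (2 / μ) := by
          rw [h6, Real.rpow_add (by norm_num), Real.rpow_one]
          ring
  have hq0 : (0 : ℝ) < (2 : ℝ) ^ (n k + 1) := by positivity
  have h7 : 2 * X ^ 2 ≤ (C * (1 + 6 * Real.pi)) ^ 2 * (X ^ s) ^ 2 * (4 * X ^ (2 / μ)) := by
    have h8 : 2 * X ^ 2 * (2 : ℝ) ^ (n k + 1) ≤
        ((C * (1 + 6 * Real.pi)) ^ 2 * (X ^ s) ^ 2 * (2 : ℝ) ^ (n k + 1)) * (2 : ℝ) ^ (n k + 1) := by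
      calc 2 * X ^ 2 * (2 : ℝ) ^ (n k + 1) = 2 * (2 : ℝ) ^ (n k + 1) * X ^ 2 := by ring
        _ ≤ _ := hmain
        _ = _ := by ring
    have h9 := le_of_mul_le_mul_right h8 hq0
    refine h9.trans ?_
    gcongr
  have h10 : X ^ 2 = X ^ ε * ((X ^ s) ^ 2 * X ^ (2 / μ)) := by
    rw [← Real.rpow_natCast (X ^ s) 2, ← Real.rpow_mul hX0.le, ← Real.rpow_add hX0, ← Real.rpow_add hX0,
      ← Real.rpow_natCast X 2]
    congr 1
    rw [hε]
    push_cast
    ring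
  have h11 : 0 < (X ^ s) ^ 2 * X ^ (2 / μ) := by positivity
  have h12 : X ^ ε ≤ D := by
    rw [h10] at h7
    have h13 : X ^ ε * ((X ^ s) ^ 2 * X ^ (2 / μ)) ≤ D * ((X ^ s) ^ 2 * X ^ (2 / μ)) := by
      rw [hD]
      nlinarith
    exact le_of_mul_le_mul_right h13 h11
  have h14 : ((2 : ℝ) ^ ε) ^ k ≤ X ^ ε := by
    have h15 : X ^ ε = ((2 : ℝ) ^ ε) ^ p := by
      rw [hX, ← Real.rpow_natCast, ← Real.rpow_mul (by norm_num), ← Real.rpow_natCast, ← Real.rpow_mul (by norm_num)]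
      congr 1
      ring
    rw [h15]
    exact pow_le_pow_right₀ (Real.one_le_rpow (by norm_num) hε0.le) hkp
  linarith

end Pool.Agent.H621.WS
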