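import Pool.Agent.H621.WS.C

set_option autoImplicit false

/-! Cantor sets given by free binary digits have positive Hausdorff dimension. -/

namespace Pool.Agent.H621.WS
open Finset

/-- the real number with binary digits `ω i` at the positions `f i` -/
noncomputable def X (f : ℕ → ℕ) (ω : ℕ → Fin 2) : ℝ := ∑' i, ((ω i : ℕ) : ℝ) * (1 / 2) ^ f i

section
variable {f : ℕ → ℕ} (hf : ∀ i, f i + 2 ≤ f (i + 1))
include hf

lemma f_strictMono : StrictMono f := strictMono_nat_of_lt_succ (fun i => by have := hf i; omega)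

omit hf in
lemma digit_le (ω : ℕ → Fin 2) (i : ℕ) : (((ω i : ℕ) : ℝ)) ≤ 1 := by
  have := (ω i).2
  exact_mod_cast (by omega : (ω i : ℕ) ≤ 1)

lemma summable_X (ω : ℕ → Fin 2) : Summable fun i => ((ω i : ℕ) : ℝ) * (1 / 2 : ℝ) ^ f i := by
  have h1 := summable_half (f_strictMono hf) 0
  refine Summable.of_nonneg_of_le (fun i => by positivity) (fun i => ?_) h1
  have := digit_le ω i
  calc ((ω i : ℕ) : ℝ) * (1 / 2 : ℝ) ^ f i ≤ 1 * (1 / 2 : ℝ) ^ f i := by gcongr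
    _ = _ := by simp

omit hf in
lemma X_nonneg (ω : ℕ → Fin 2) : 0 ≤ X f ω := tsum_nonneg (fun i => by positivity)

lemma X_split (ω : ℕ → Fin 2) (i : ℕ) : ∃ r : ℝ, 0 ≤ r ∧ r ≤ tail f i ∧
    X f ω = ∑ j ∈ range i, ((ω j : ℕ) : ℝ) * (1 / 2) ^ f j + r := by
  refine ⟨∑' j, ((ω (j + i) : ℕ) : ℝ) * (1 / 2 : ℝ) ^ f (j + i), tsum_nonneg (fun i => by positivity), ?_, ?_⟩
  · refine Summable.tsum_le_tsum (fun j => ?_) ?_ (summable_half (f_strictMono hf) i)
    · have := digit_le ω (j + i)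
      calc ((ω (j + i) : ℕ) : ℝ) * (1 / 2 : ℝ) ^ f (j + i) ≤ 1 * (1 / 2 : ℝ) ^ f (j + i) := by gcongr
        _ = _ := by simp
    · exact (summable_nat_add_iff i).2 (summable_X hf ω)
  · exact ((summable_X hf ω).sum_add_tsum_nat_add i).symm

lemma X_sep (ω ω' : ℕ → Fin 2) (i : ℕ) (hi : ω i ≠ ω' i) (hlt : ∀ j < i, ω j = ω' j) :
    (1 / 2 : ℝ) ^ f i / 2 ≤ |X f ω - X f ω'| := by
  obtain ⟨r, hr0, hr1, hr⟩ := X_split hf ω (i + 1)
  obtain ⟨r', hr'0, hr'1, hr'⟩ := X_split hf ω' (i + 1)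
  have h1 := tail_le (f_strictMono hf) (i + 1)
  have h2 : (1 / 2 : ℝ) ^ f (i + 1) ≤ (1 / 2 : ℝ) ^ f i / 4 := by
    refine (half_pow_le (hf i)).trans (le_of_eq ?_)
    rw [pow_add]
    norm_num
    ring
  have h3 : ∑ j ∈ range i, ((ω j : ℕ) : ℝ) * (1 / 2 : ℝ) ^ f j = ∑ j ∈ range i, ((ω' j : ℕ) : ℝ) * (1 / 2 : ℝ) ^ f j := by
    apply sum_congr rfl
    intro j hj
    rw [hlt j (mem_range.1 hj)]
  rw [hr, hr', sum_range_succ, sum_range_succ, h3]
  have h4 : ((ω i : ℕ) : ℝ) - ((ω' i : ℕ) : ℝ) = 1 ∨ ((ω i : ℕ) : ℝ) - ((ω' i : ℕ) : ℝ) = -1 := by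
    have h5 := (ω i).2
    have h6 := (ω' i).2
    have h7 : (ω i : ℕ) ≠ (ω' i : ℕ) := fun h => hi (Fin.ext h)
    have h8 : ((ω i : ℕ) = 1 ∧ (ω' i : ℕ) = 0) ∨ ((ω i : ℕ) = 0 ∧ (ω' i : ℕ) = 1) := by omega
    rcases h8 with ⟨h8, h9⟩ | ⟨h8, h9⟩
    · left; rw [h8, h9]; norm_num
    · right; rw [h8, h9]; norm_num
  have h10 : (0 : ℝ) < (1 / 2 : ℝ) ^ f i := by positivity
  set S := ∑ j ∈ range i, ((ω' j : ℕ) : ℝ) * (1 / 2 : ℝ) ^ f j
  have h11 : S + ((ω i : ℕ) : ℝ) * (1 / 2 : ℝ) ^ f i + r - (S + ((ω' i : ℕ) : ℝ) * (1 / 2 : ℝ) ^ f i + r') =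
      (((ω i : ℕ) : ℝ) - ((ω' i : ℕ) : ℝ)) * (1 / 2 : ℝ) ^ f i + (r - r') := by ring
  rw [h11]
  rcases h4 with h4 | h4
  · rw [h4]
    refine le_trans ?_ (le_abs_self _)
    linarith
  · rw [h4]
    refine le_trans ?_ (neg_le_abs _)
    linarith

omit hf in
lemma exists_first (ω ω' : ℕ → Fin 2) (h : ω ≠ ω') : ∃ i, ω i ≠ ω' i ∧ ∀ j < i, ω j = ω' j := by
  have h1 : ∃ i, ω i ≠ ω' i := Function.ne_iff.1 h
  classical
  refine ⟨Nat.find h1, Nat.find_spec h1, fun j hj => ?_⟩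
  by_contra h2
  exact Nat.find_min h1 hj h2

lemma X_injective : Function.Injective (X f) := by
  intro ω ω' h
  by_contra hne
  obtain ⟨i, hi, hlt⟩ := exists_first ω ω' hne
  have h1 := X_sep hf ω ω' i hi hlt
  rw [h, sub_self, abs_zero] at h1
  have : (0 : ℝ) < (1 / 2 : ℝ) ^ f i / 2 := by positivity
  linarith

theorem dimH_X_pos (K : ℝ) (hK : 0 < K) (hfK : ∀ i, (f i : ℝ) ≤ K * (i + 1)) : 0 < dimH (Set.range (X f)) := by
  classical
  set g : ℝ → ℝ := fun y => Real.ofDigits (Function.invFun (X f) y) with hg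
  have hgX : ∀ ω, g (X f ω) = Real.ofDigits ω := by
    intro ω
    rw [hg]
    simp only
    rw [Function.leftInverse_invFun (X_injective hf) ω]
  set r : NNReal := ⟨1 / K, by positivity⟩ with hr
  set C : NNReal := ⟨2 * 2 ^ (1 / K), by positivity⟩ with hC
  have hreal : ∀ ω ω', |g (X f ω) - g (X f ω')| ≤ (2 * 2 ^ (1 / K)) * |X f ω - X f ω'| ^ (1 / K) := by
    intro ω ω'
    by_cases hne : ω = ω'
    · subst hne
      simp only [sub_self, abs_zero]
      positivity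
    · obtain ⟨i, hi, hlt⟩ := exists_first ω ω' hne
      have h1 := X_sep hf ω ω' i hi hlt
      rw [hgX, hgX]
      have h2 := Real.abs_ofDigits_sub_ofDigits_le (x := ω) (y := ω') (n := i) hlt
      refine h2.trans ?_
      have h3 : (((2 : ℕ) : ℝ) ^ i)⁻¹ ≤ 2 * ((1 / 2 : ℝ) ^ f i) ^ (1 / K) := by
        have h4 : ((1 / 2 : ℝ) ^ f i) ^ (1 / K) = (2 : ℝ) ^ (-((f i : ℝ) / K)) := by
          rw [one_div, inv_pow, ← Real.rpow_natCast, ← Real.rpow_neg (by norm_num), ← Real.rpow_mul (by norm_num)]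
          congr 1
          ring
        have h5 : (((2 : ℕ) : ℝ) ^ i)⁻¹ = 2 * (2 : ℝ) ^ (-((i : ℝ) + 1)) := by
          rw [neg_add, Real.rpow_add (by norm_num), Real.rpow_neg (by norm_num), Real.rpow_natCast, Real.rpow_neg (by norm_num),
            Real.rpow_one]
          push_cast
          ring
        rw [h4, h5]
        have h6 : (f i : ℝ) / K ≤ (i : ℝ) + 1 := by
          rw [div_le_iff₀ hK]
          have := hfK i
          linarith
        gcongr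
        · norm_num
      refine h3.trans ?_
      have h7 : (1 / 2 : ℝ) ^ f i ≤ 2 * |X f ω - X f ω'| := by linarith
      calc 2 * ((1 / 2 : ℝ) ^ f i) ^ (1 / K) ≤ 2 * (2 * |X f ω - X f ω'|) ^ (1 / K) := by gcongr
        _ = _ := by rw [Real.mul_rpow (by norm_num) (abs_nonneg _)]; ring
  have hhol : HolderOnWith C r g (Set.range (X f)) := by
    rintro _ ⟨ω, rfl⟩ _ ⟨ω', rfl⟩
    have h1 := hreal ω ω'
    rw [edist_dist, edist_dist, Real.dist_eq, Real.dist_eq, ENNReal.ofReal_rpow_of_nonneg (abs_nonneg _) (NNReal.coe_nonneg r)]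
    rw [← ENNReal.ofReal_coe_nnreal, ← ENNReal.ofReal_mul (NNReal.coe_nonneg C)]
    exact ENNReal.ofReal_le_ofReal h1
  have hr0 : 0 < r := by
    rw [← NNReal.coe_pos]
    exact div_pos one_pos hK
  have h1 := hhol.dimH_image_le hr0
  have h2 : (1 : ENNReal) ≤ dimH (g '' Set.range (X f)) := by
    have h3 : Set.Ico (0 : ℝ) 1 ⊆ g '' Set.range (X f) := by
      intro y hy
      refine ⟨X f (Real.digits y 2), ⟨_, rfl⟩, ?_⟩
      rw [hgX]
      exact Real.ofDigits_digits (by norm_num) hy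
    have h4 : dimH (Set.Ico (0 : ℝ) 1) = 1 := by
      rw [Real.dimH_of_nonempty_interior (E := ℝ) (by rw [interior_Ico]; exact ⟨1 / 2, by norm_num, by norm_num⟩)]
      simp
    rw [← h4]
    exact dimH_mono h3
  by_contra hcon
  have h5 : dimH (Set.range (X f)) = 0 := le_antisymm (not_lt.1 hcon) bot_le
  rw [h5, ENNReal.zero_div] at h1
  exact absurd (h2.trans h1) (by norm_num)

end

open Classical in
lemma exists_positions {μ : ℝ} {n : ℕ → ℕ} (h : Seq μ n) (hμ : 3 ≤ μ) :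
    ∃ f : ℕ → ℕ, (∀ i, f i + 2 ≤ f (i + 1)) ∧ 2 ≤ f 0 ∧ (∀ i k, f i ≤ n k ∨ n (k + 1) / 2 < f i) ∧
      ∃ K : ℝ, 0 < K ∧ ∀ i, (f i : ℝ) ≤ K * (i + 1) := by
  have hn := h.strictMono hμ
  have hdouble : ∀ k l, k < l → 2 * n k ≤ n l := by
    intro k l hkl
    have h1 := h.three_mul_le hμ k
    have h2 : n (k + 1) ≤ n l := hn.monotone hkl
    omega
  obtain ⟨P, hP⟩ : ∃ P : ℕ → Prop, ∀ j, P j ↔ (2 ∣ j ∧ 2 ≤ j ∧ ∀ k, j ≤ n k ∨ n (k + 1) / 2 < j) :=
    ⟨_, fun j => Iff.rfl⟩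
  have hcount : ∀ k, n k / 4 ≤ Nat.count P (n k + 1) := by
    intro k
    rw [Nat.count_eq_card_filter_range]
    have h1 : (Ioc (n k / 4) (n k / 2)).image (fun t => 2 * t) ⊆ (range (n k + 1)).filter P := by
      intro j hj
      rw [mem_image] at hj
      obtain ⟨t, ht, rfl⟩ := hj
      rw [mem_Ioc] at ht
      rw [mem_filter, mem_range, hP]
      refine ⟨by omega, Dvd.intro _ rfl, by omega, fun l => ?_⟩
      by_cases hl : k ≤ l
      · left
        have : n k ≤ n l := hn.monotone hl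
        omega
      · right
        have : n (l + 1) ≤ n k := hn.monotone (by omega)
        omega
    have h2 := card_le_card h1
    rw [card_image_of_injective _ (fun a b hab => by simpa using hab), Nat.card_Ioc] at h2
    have h3 : n k / 4 ≤ ((range (n k + 1)).filter P).card := by omega
    convert h3
  have hex : ∀ i : ℕ, ∃ k, 4 * (i + 1) ≤ n k := fun i => ⟨4 * (i + 1), hn.id_le _⟩
  have hlt : ∀ i k, 4 * (i + 1) ≤ n k → i < Nat.count P (n k + 1) := by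
    intro i k hk
    have := hcount k
    omega
  have hinf : (Set.ofPred P).Infinite := by
    intro hfin
    obtain ⟨k, hk⟩ := hex hfin.toFinset.card
    have h1 := hlt _ k hk
    have h2 : Nat.count P (n k + 1) ≤ hfin.toFinset.card := by
      rw [Nat.count_eq_card_filter_range]
      apply card_le_card
      intro j hj
      rw [mem_filter] at hj
      rw [Set.Finite.mem_toFinset]
      exact hj.2
    omega
  have hmem : ∀ i, (2 ∣ Nat.nth P i ∧ 2 ≤ Nat.nth P i ∧ ∀ k, Nat.nth P i ≤ n k ∨ n (k + 1) / 2 < Nat.nth P i) :=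
    fun i => (hP _).1 (Nat.nth_mem_of_infinite hinf i)
  have hmono : StrictMono (Nat.nth P) := Nat.nth_strictMono hinf
  refine ⟨Nat.nth P, fun i => ?_, (hmem 0).2.1, fun i k => (hmem i).2.2 k, 8 * μ + n 0 + 2, by positivity, fun i => ?_⟩
  · have h1 := hmono (Nat.lt_succ_self i)
    have h2 := (hmem i).1
    have h3 := (hmem (i + 1)).1
    rw [Nat.succ_eq_add_one] at h1
    omega
  · obtain ⟨k, hk, hmin⟩ : ∃ k, 4 * (i + 1) ≤ n k ∧ ∀ l < k, ¬ (4 * (i + 1) ≤ n l) :=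
      ⟨Nat.find (hex i), Nat.find_spec (hex i), fun l hl => Nat.find_min (hex i) hl⟩
    have h1 := Nat.nth_lt_of_lt_count (hlt i k hk)
    have h2 : (Nat.nth P i : ℝ) ≤ n k := by exact_mod_cast (by omega : Nat.nth P i ≤ n k)
    have hi0 : (0 : ℝ) ≤ i := Nat.cast_nonneg _
    rcases Nat.eq_zero_or_pos k with rfl | hk0
    · have h3 : (0 : ℝ) ≤ n 0 := Nat.cast_nonneg _
      nlinarith
    · obtain ⟨l, rfl⟩ : ∃ l, k = l + 1 := ⟨k - 1, by omega⟩
      have h3 := hmin l (Nat.lt_succ_self l)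
      have h4 : n l ≤ 4 * (i + 1) := by omega
      have h5 : (n l : ℝ) ≤ 4 * (i + 1) := by exact_mod_cast h4
      have h6 := h.hi l
      have h7 : (0 : ℝ) ≤ n 0 := Nat.cast_nonneg _
      nlinarith

lemma good_X_aux {n f : ℕ → ℕ} (hf : ∀ i, f i + 2 ≤ f (i + 1)) (hP : ∀ i k, f i ≤ n k ∨ n (k + 1) / 2 < f i)
    (ω : ℕ → Fin 2) (k : ℕ) :
    ∃ b : ℤ, 0 ≤ X f ω - ((2 * b : ℤ) : ℝ) / ((2 ^ (n k + 1) : ℕ) : ℝ) ∧
    X f ω - ((2 * b : ℤ) : ℝ) / ((2 ^ (n k + 1) : ℕ) : ℝ) ≤ (1 / 2 : ℝ) ^ (n (k + 1) / 2) := by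
  classical
  have hfm := f_strictMono hf
  have hex : ∃ i, n k < f i := ⟨n k + 1, by have := hfm.id_le (n k + 1); simp only [id] at this; omega⟩
  obtain ⟨i₀, hi₀, hmin⟩ : ∃ k' , n k < f k' ∧ ∀ l < k', ¬ (n k < f l) :=
      ⟨Nat.find hex, Nat.find_spec hex, fun l hl => Nat.find_min hex hl⟩
  obtain ⟨r, hr0, hr1, hr⟩ := X_split hf ω i₀
  refine ⟨∑ i ∈ range i₀, ((ω i : ℕ) : ℤ) * 2 ^ (n k - f i), ?_⟩
  have h1 : ((2 * ∑ i ∈ range i₀, ((ω i : ℕ) : ℤ) * 2 ^ (n k - f i) : ℤ) : ℝ) / ((2 ^ (n k + 1) : ℕ) : ℝ) =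
      ∑ i ∈ range i₀, ((ω i : ℕ) : ℝ) * (1 / 2) ^ f i := by
    push_cast
    rw [mul_sum, sum_div]
    apply sum_congr rfl
    intro i hi
    have h2 := hmin i (mem_range.1 hi)
    have h3 : (2 : ℝ) ^ (n k + 1) = 2 * (2 ^ (n k - f i) * 2 ^ f i) := by
      rw [← pow_add, ← pow_succ']
      congr 1
      omega
    rw [h3, one_div, inv_pow]
    field_simp
  rw [h1, hr]
  constructor
  · linarith
  · have h4 : n (k + 1) / 2 + 1 ≤ f i₀ := by
      rcases hP i₀ k with h5 | h5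
      · omega
      · omega
    have h6 := tail_le hfm i₀
    have h7 := half_pow_le h4
    rw [pow_succ] at h7
    linarith

end Pool.Agent.H621.WS
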