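import Pool.Agent.H621.WS.D
import Pool.Agent.H621.WS.E

set_option autoImplicit false

/-! The exact growth exponent of the special quadratic sums. -/

namespace Pool.Agent.H621.WS
open Finset

/-- upper bound in the form of a power -/
theorem Q_upper' {μ : ℝ} {n : ℕ → ℕ} (h : Seq μ n) (hμ : 3 ≤ μ) (s : ℝ) (hs : 1 - 1 / μ < s) :
    ∃ C : ℝ, 0 < C ∧ ∀ (x : ℝ) (N : ℕ), 1 ≤ N → ‖Q x (xi n) N‖ ≤ C * (N : ℝ) ^ s := by
  obtain ⟨C, hC0, hC⟩ := Q_upper h hμ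
  set ε : ℝ := s - (1 - 1 / μ) with hε
  have hε0 : 0 < ε := by rw [hε]; linarith
  refine ⟨Real.sqrt (C * (1 + 1 / (2 * ε))), Real.sqrt_pos.2 (by positivity), fun x N hN => ?_⟩
  have hN1 : (1 : ℝ) ≤ N := by exact_mod_cast hN
  have hN0 : (0 : ℝ) < N := by linarith
  have h1 : 1 + Real.log N ≤ (1 + 1 / (2 * ε)) * (N : ℝ) ^ (2 * ε) := by
    have h2 := Real.log_le_rpow_div hN0.le (by positivity : 0 < 2 * ε)
    have h3 : (1 : ℝ) ≤ (N : ℝ) ^ (2 * ε) := Real.one_le_rpow hN1 (by positivity)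
    calc 1 + Real.log N ≤ (N : ℝ) ^ (2 * ε) + (N : ℝ) ^ (2 * ε) / (2 * ε) := by linarith
      _ = _ := by ring
  have h4 : ‖Q x (xi n) N‖ ^ 2 ≤ (Real.sqrt (C * (1 + 1 / (2 * ε))) * (N : ℝ) ^ s) ^ 2 := by
    rw [mul_pow, Real.sq_sqrt (by positivity)]
    calc ‖Q x (xi n) N‖ ^ 2 ≤ C * (1 + Real.log N) * (N : ℝ) ^ (2 - 2 / μ) := hC x N hN
      _ ≤ C * ((1 + 1 / (2 * ε)) * (N : ℝ) ^ (2 * ε)) * (N : ℝ) ^ (2 - 2 / μ) := by gcongr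
      _ = C * (1 + 1 / (2 * ε)) * ((N : ℝ) ^ (2 * ε) * (N : ℝ) ^ (2 - 2 / μ)) := by ring
      _ = C * (1 + 1 / (2 * ε)) * ((N : ℝ) ^ s) ^ 2 := by
          congr 1
          rw [← Real.rpow_add hN0, ← Real.rpow_natCast ((N : ℝ) ^ s) 2, ← Real.rpow_mul hN0.le]
          congr 1
          rw [hε]
          push_cast
          ring
  exact le_of_sq_le_sq h4 (by positivity)

lemma sum_Icc_eq (x ξ : ℝ) (N : ℕ) : ∑ n ∈ Icc 1 N, e (x * n + ξ * (n : ℝ) ^ 2) = Q x ξ (N + 1) - 1 := by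
  unfold Q
  rw [range_eq_Ico, sum_eq_sum_Ico_succ_bot (by omega : 0 < N + 1)]
  have : Ico (0 + 1) (N + 1) = Icc 1 N := by
    ext a
    simp only [mem_Ico, mem_Icc]
    omega
  rw [this]
  simp [e_zero]

/-- the exponents for which the sums over `1 ≤ n ≤ N` are `O(N^s)` -/
def expSet (S : ℕ → ℂ) : Set ℝ := {s : ℝ | 0 < s ∧ ∃ C : ℝ, ∀ N : ℕ, 1 ≤ N → ‖S N‖ ≤ C * (N : ℝ) ^ s}

theorem sInf_expSet {μ : ℝ} {n : ℕ → ℕ} (h : Seq μ n) (hμ : 3 ≤ μ) {x : ℝ} (hx : Good n x) :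
    sInf (expSet fun N => ∑ m ∈ Icc 1 N, e (x * m + xi n * (m : ℝ) ^ 2)) = 1 - 1 / μ := by
  have hα : 0 < 1 - 1 / μ := by
    have : 1 / μ < 1 := by rw [div_lt_one (by linarith)]; linarith
    linarith
  have hmem : ∀ s, 1 - 1 / μ < s → s ∈ expSet fun N => ∑ m ∈ Icc 1 N, e (x * m + xi n * (m : ℝ) ^ 2) := by
    intro s hs
    obtain ⟨C, hC0, hC⟩ := Q_upper' h hμ s hs
    have hs0 : 0 < s := hα.trans hs
    refine ⟨hs0, C * 2 ^ s + 1, fun N hN => ?_⟩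
    simp only
    rw [sum_Icc_eq]
    have hN1 : (1 : ℝ) ≤ N := by exact_mod_cast hN
    have h1 : (((N + 1 : ℕ) : ℝ)) ^ s ≤ 2 ^ s * (N : ℝ) ^ s := by
      rw [← Real.mul_rpow (by norm_num) (by linarith)]
      push_cast
      apply Real.rpow_le_rpow (by linarith) (by linarith) hs0.le
    have h2 : (1 : ℝ) ≤ (N : ℝ) ^ s := Real.one_le_rpow hN1 hs0.le
    calc ‖Q x (xi n) (N + 1) - 1‖ ≤ ‖Q x (xi n) (N + 1)‖ + ‖(1 : ℂ)‖ := norm_sub_le _ _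
      _ ≤ C * (((N + 1 : ℕ) : ℝ)) ^ s + 1 := by
          rw [norm_one]
          gcongr
          exact hC x (N + 1) (by omega)
      _ ≤ C * (2 ^ s * (N : ℝ) ^ s) + (N : ℝ) ^ s := by gcongr
      _ = _ := by ring
  apply csInf_eq_of_forall_ge_of_forall_gt_exists_lt
  · exact ⟨_, hmem (1 - 1 / μ + 1) (by linarith)⟩
  · rintro s ⟨hs0, C, hC⟩
    refine Q_lower h hμ hx s (C + 1) hs0.le fun M hM => ?_
    have hC0 : 0 ≤ C := by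
      have := (norm_nonneg _).trans (hC 1 le_rfl)
      simpa using this
    obtain ⟨M, rfl⟩ : ∃ M', M = M' + 1 := ⟨M - 1, by omega⟩
    have h1 : Q x (xi n) (M + 1) = (∑ m ∈ Icc 1 M, e (x * m + xi n * (m : ℝ) ^ 2)) + 1 := by
      rw [sum_Icc_eq]; ring
    have hM1 : (1 : ℝ) ≤ ((M + 1 : ℕ) : ℝ) := by exact_mod_cast hM
    have h2 : (1 : ℝ) ≤ (((M + 1 : ℕ) : ℝ)) ^ s := Real.one_le_rpow hM1 hs0.le
    rw [h1]
    have h3 : ‖∑ m ∈ Icc 1 M, e (x * m + xi n * (m : ℝ) ^ 2)‖ ≤ C * (((M + 1 : ℕ) : ℝ)) ^ s := by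
      rcases Nat.eq_zero_or_pos M with rfl | hM0
      · simp
        exact hC0
      · refine (hC M hM0).trans ?_
        gcongr
        exact_mod_cast Nat.le_succ M
    calc ‖(∑ m ∈ Icc 1 M, e (x * m + xi n * (m : ℝ) ^ 2)) + 1‖
        ≤ ‖∑ m ∈ Icc 1 M, e (x * m + xi n * (m : ℝ) ^ 2)‖ + ‖(1 : ℂ)‖ := norm_add_le _ _
      _ ≤ C * (((M + 1 : ℕ) : ℝ)) ^ s + (((M + 1 : ℕ) : ℝ)) ^ s := by
          rw [norm_one]
          gcongr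
      _ = _ := by ring
  · intro w hw
    obtain ⟨s, hs1, hs2⟩ := exists_between hw
    exact ⟨s, hmem s hs1, hs2⟩

end Pool.Agent.H621.WS
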